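import Mathlib

/-!
# The second order expansion of a convex-transitive norm is coercive if there is an equivalent norm
with modulus of convexity of power type 2 (helper282)
-/

set_option autoImplicit false

namespace Pool.Agent.H282.Stab

open Filter Topology Asymptotics

/-- an extremal argument: an isometric image of `x` at which `q` is almost maximal -/
theorem coercive_of_convex {E : Type*} [NormedAddCommGroup E] [NormedSpace ℝ E] {x : E}
    {A : E →L[ℝ] E →L[ℝ] ℝ}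
    (hexp : (fun w : E => ‖x + w‖ ^ 2 + ‖x - w‖ ^ 2 - 2 * ‖x‖ ^ 2 - 2 * A w w)
      =o[𝓝 0] fun w : E => ‖w‖ ^ 2)
    (hct : ∀ x y : E, ‖x‖ = 1 → ‖y‖ = 1 →
      y ∈ closure (convexHull ℝ {z : E | ∃ T : E ≃ₗᵢ[ℝ] E, T x = z}))
    {q : Seminorm ℝ E} {a b c : ℝ} (ha : 0 < a) (hc : 0 < c) (hqa : ∀ v, a * ‖v‖ ≤ q v)
    (hqb : ∀ v, q v ≤ b * ‖v‖)
    (hq : ∀ v w, 2 * q v ^ 2 + 2 * c * q w ^ 2 ≤ q (v + w) ^ 2 + q (v - w) ^ 2) :
    ∃ c' : ℝ, 0 < c' ∧ ∀ w, c' * ‖w‖ ^ 2 ≤ A w w := by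
  -- the homogeneity
  have hom : ∀ κ δ : ℝ, 0 < δ → (∀ w : E, ‖w‖ < δ → κ * ‖w‖ ^ 2 ≤ A w w) →
      ∀ w, κ * ‖w‖ ^ 2 ≤ A w w := by
    intro κ δ hδ h w
    obtain ⟨t, ht⟩ : ∃ t : ℝ, t = δ / (2 * (‖w‖ + 1)) := ⟨_, rfl⟩
    have hw := norm_nonneg w
    have ht0 : 0 < t := by rw [ht]; positivity
    have hlt : ‖t • w‖ < δ := by
      rw [norm_smul, Real.norm_of_nonneg ht0.le, ht, div_mul_eq_mul_div, div_lt_iff₀ (by positivity)]
      nlinarith
    have h1 := h (t • w) hlt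
    rw [norm_smul, Real.norm_of_nonneg ht0.le, map_smul, map_smul, _root_.smul_apply, smul_eq_mul,
      smul_eq_mul] at h1
    have h2 : t ^ 2 * (κ * ‖w‖ ^ 2) ≤ t ^ 2 * A w w := by
      calc t ^ 2 * (κ * ‖w‖ ^ 2) = κ * (t * ‖w‖) ^ 2 := by ring
        _ ≤ t * (t * A w w) := h1
        _ = t ^ 2 * A w w := by ring
    exact le_of_mul_le_mul_left h2 (by positivity)
  by_cases hx : x = 0
  · obtain ⟨δ, hδ, H⟩ := Metric.eventually_nhds_iff.1 (hexp.def one_pos)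
    refine ⟨1 / 2, by norm_num, hom (1 / 2) δ hδ fun w hw => ?_⟩
    have h1 := H (y := w) (by rwa [dist_zero_right])
    rw [hx, zero_add, zero_sub, norm_neg, norm_zero, Real.norm_eq_abs, Real.norm_eq_abs,
      abs_of_nonneg (sq_nonneg ‖w‖)] at h1
    have h2 := (abs_le.1 h1).2
    nlinarith
  · have hx0 : 0 < ‖x‖ := norm_pos_iff.2 hx
    obtain ⟨Q, hQ⟩ : ∃ Q : Set ℝ, Q = Set.range fun T : E ≃ₗᵢ[ℝ] E => q (T x) := ⟨_, rfl⟩
    have hQb : BddAbove Q := by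
      refine ⟨b * ‖x‖, ?_⟩
      rintro y hy
      rw [hQ] at hy
      obtain ⟨T, rfl⟩ := hy
      exact (hqb _).trans (by rw [T.norm_map])
    obtain ⟨m, hm⟩ : ∃ m : ℝ, m = sSup Q := ⟨_, rfl⟩
    have hle : ∀ T : E ≃ₗᵢ[ℝ] E, q (T x) ≤ m := fun T => by
      rw [hm]
      exact le_csSup hQb (by rw [hQ]; exact ⟨T, rfl⟩)
    have hm0 : 0 < m := by
      have h1 := hle (LinearIsometryEquiv.refl ℝ E)
      have h2 := hqa x
      have h3 : 0 < a * ‖x‖ := by positivity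
      simp only [LinearIsometryEquiv.coe_refl, id_eq] at h1
      linarith
    have hcont : Continuous q := by
      have h1 : LipschitzWith (max b 0).toNNReal q := by
        refine LipschitzWith.of_le_add_mul _ fun v w => ?_
        have h2 : q v ≤ q w + q (v - w) := by
          have h3 := map_add_le_add q w (v - w)
          rwa [add_sub_cancel] at h3
        have h4 : q (v - w) ≤ (max b 0) * ‖v - w‖ :=
          (hqb _).trans (mul_le_mul_of_nonneg_right (le_max_left _ _) (norm_nonneg _))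
        rw [dist_eq_norm, Real.coe_toNNReal _ (le_max_right _ _)]
        linarith
      exact h1.continuous
    have hsup : ∀ v, q v ≤ m / ‖x‖ * ‖v‖ := by
      intro v
      by_cases hv : v = 0
      · rw [hv, map_zero, norm_zero, mul_zero]
      have hv0 : 0 < ‖v‖ := norm_pos_iff.2 hv
      have h1 : ‖‖x‖⁻¹ • x‖ = 1 := by
        rw [norm_smul, norm_inv, norm_norm, inv_mul_cancel₀ hx0.ne']
      have h2 : ‖‖v‖⁻¹ • v‖ = 1 := by
        rw [norm_smul, norm_inv, norm_norm, inv_mul_cancel₀ hv0.ne']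
      have h3 := hct _ _ h1 h2
      have hcl : IsClosed {z : E | q z ≤ m / ‖x‖} := isClosed_le hcont continuous_const
      have hcv : Convex ℝ {z : E | q z ≤ m / ‖x‖} := by
        have h4 := q.convexOn.convex_le (m / ‖x‖)
        have h5 : {z : E | q z ≤ m / ‖x‖} = {z ∈ Set.univ | q z ≤ m / ‖x‖} := by
          ext z
          simp
        rw [h5]
        exact h4
      have h6 : closure (convexHull ℝ {z : E | ∃ T : E ≃ₗᵢ[ℝ] E, T (‖x‖⁻¹ • x) = z}) ⊆
          {z : E | q z ≤ m / ‖x‖} := by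
        refine closure_minimal (convexHull_min ?_ hcv) hcl
        rintro z ⟨T, rfl⟩
        rw [Set.mem_ofPred_eq, map_smul, map_smul_eq_mul, norm_inv, norm_norm, div_eq_inv_mul]
        exact mul_le_mul_of_nonneg_left (hle T) (by positivity)
      have h7 : q (‖v‖⁻¹ • v) ≤ m / ‖x‖ := h6 h3
      rw [map_smul_eq_mul, norm_inv, norm_norm, inv_mul_le_iff₀ hv0] at h7
      linarith
    obtain ⟨R, hR⟩ : ∃ R : ℝ, R = (m / ‖x‖) ^ 2 := ⟨_, rfl⟩
    have hR0 : 0 < R := by rw [hR]; positivity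
    have hRx : R * ‖x‖ ^ 2 = m ^ 2 := by
      rw [hR, ← mul_pow, div_mul_cancel₀ _ hx0.ne']
    have hsq : ∀ v, q v ^ 2 ≤ R * ‖v‖ ^ 2 := by
      intro v
      rw [hR, ← mul_pow]
      exact pow_le_pow_left₀ (apply_nonneg q v) (hsup v) 2
    have hη : 0 < c * a ^ 2 / R := by positivity
    obtain ⟨δ, hδ, H⟩ := Metric.eventually_nhds_iff.1 (hexp.def hη)
    refine ⟨c * a ^ 2 / (2 * R), by positivity, hom _ δ hδ fun w hw => ?_⟩
    have h1 := H (y := w) (by rwa [dist_zero_right])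
    rw [Real.norm_eq_abs, Real.norm_eq_abs, abs_of_nonneg (sq_nonneg ‖w‖)] at h1
    have h2 := (abs_le.1 h1).2
    obtain ⟨D, hD⟩ : ∃ D : ℝ, D = R * (‖x + w‖ ^ 2 + ‖x - w‖ ^ 2) - 2 * c * a ^ 2 * ‖w‖ ^ 2 :=
      ⟨_, rfl⟩
    have h3 : ∀ T : E ≃ₗᵢ[ℝ] E, 2 * q (T x) ^ 2 ≤ D := by
      intro T
      have h4 := hq (T x) (T w)
      rw [← map_add, ← map_sub] at h4
      have h5 := hsq (T (x + w))
      have h6 := hsq (T (x - w))
      rw [T.norm_map] at h5 h6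
      have h7 : a ^ 2 * ‖w‖ ^ 2 ≤ q (T w) ^ 2 := by
        rw [← mul_pow]
        refine pow_le_pow_left₀ (by positivity) ?_ 2
        have := hqa (T w)
        rwa [T.norm_map] at this
      have h8 : c * (a ^ 2 * ‖w‖ ^ 2) ≤ c * q (T w) ^ 2 := mul_le_mul_of_nonneg_left h7 hc.le
      rw [hD]
      linarith
    have h4 : m ≤ Real.sqrt (D / 2) := by
      rw [hm]
      refine csSup_le (by rw [hQ]; exact ⟨_, LinearIsometryEquiv.refl ℝ E, rfl⟩) ?_
      rintro y hy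
      rw [hQ] at hy
      obtain ⟨T, rfl⟩ := hy
      refine Real.le_sqrt_of_sq_le ?_
      have := h3 T
      linarith
    have h5 : m ^ 2 ≤ D / 2 := by
      have hD0 : 0 ≤ D / 2 := by
        have := h3 (LinearIsometryEquiv.refl ℝ E)
        have := sq_nonneg (q ((LinearIsometryEquiv.refl ℝ E) x))
        linarith
      calc m ^ 2 ≤ Real.sqrt (D / 2) ^ 2 := pow_le_pow_left₀ hm0.le h4 2
        _ = D / 2 := Real.sq_sqrt hD0
    have h6 : R * (‖x + w‖ ^ 2 + ‖x - w‖ ^ 2) ≤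
        R * (2 * ‖x‖ ^ 2 + 2 * A w w + c * a ^ 2 / R * ‖w‖ ^ 2) :=
      mul_le_mul_of_nonneg_left (by linarith) hR0.le
    have h7 : R * (2 * ‖x‖ ^ 2 + 2 * A w w + c * a ^ 2 / R * ‖w‖ ^ 2) =
        2 * (R * ‖x‖ ^ 2) + 2 * R * A w w + c * a ^ 2 * ‖w‖ ^ 2 := by
      field_simp
    rw [h7, hRx] at h6
    rw [div_mul_eq_mul_div, div_le_iff₀ (by positivity)]
    rw [hD] at h5
    linarith

end Pool.Agent.H282.Stab
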