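import Mathlib

/-! # Stable norms -/

set_option autoImplicit false

namespace Pool.Agent.H282.Stab

open Filter Topology

/-- **Stable norms** (Krivine and Maurey): for all bounded sequences `x`, `y` and all ultrafilters
`U`, `V` on the natural numbers the two iterated limits of `‖x n + y m‖` coincide. -/
def StableNorm (E : Type) [NormedAddCommGroup E] : Prop :=
  ∀ (x y : ℕ → E) (C : ℝ), (∀ n, ‖x n‖ ≤ C) → (∀ n, ‖y n‖ ≤ C) → ∀ U V : Ultrafilter ℕ,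
    ∀ (a b : ℕ → ℝ) (α β : ℝ), (∀ n, Tendsto (fun m => ‖x n + y m‖) V (𝓝 (a n))) →
      (∀ m, Tendsto (fun n => ‖x n + y m‖) U (𝓝 (b m))) → Tendsto a U (𝓝 α) →
      Tendsto b V (𝓝 β) → α = β

/-- **Locally Roelcke precompact isometry groups**: for the strong operator topology some
neighbourhood of `1` in the group of surjective linear isometries is contained in `V Q V` with `Q`
finite, for every neighbourhood `V` of `1`. -/
def LocRoelcke (E : Type) [NormedAddCommGroup E] [NormedSpace ℝ E] : Prop :=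
  ∃ (m : ℕ) (e : Fin m → E) (ρ : ℝ), 0 < ρ ∧
    ∀ (k : ℕ) (f : Fin k → E) (ε : ℝ), 0 < ε → ∃ Q : Set (E ≃ₗᵢ[ℝ] E), Q.Finite ∧
      ∀ T : E ≃ₗᵢ[ℝ] E, (∀ i, ‖T (e i) - e i‖ < ρ) →
        ∃ V V' : E ≃ₗᵢ[ℝ] E, ∃ q ∈ Q, (∀ i, ‖V (f i) - f i‖ < ε) ∧
          (∀ i, ‖V' (f i) - f i‖ < ε) ∧ T = V * q * V'

/-- **Locally compact pair orbits**: for some `r > 0` the pairs of unit vectors at distance at most
`r` form a totally bounded space modulo isometries. -/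
def LocPairOrbits (E : Type) [NormedAddCommGroup E] [NormedSpace ℝ E] : Prop :=
  ∃ r : ℝ, 0 < r ∧ ∀ ε : ℝ, 0 < ε → ∃ P : Finset (E × E), ∀ x z : E, ‖x‖ = 1 → ‖z‖ = 1 →
    ‖x - z‖ ≤ r → ∃ p ∈ P, ∃ T : E ≃ₗᵢ[ℝ] E, ‖T x - p.1‖ ≤ ε ∧ ‖T z - p.2‖ ≤ ε

end Pool.Agent.H282.Stab
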