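import Mathlib

/-!
# Families of functions without order property have separable closures

This is the argument of Erdős and Makkai, in the form used in continuous model theory: if the
pointwise closure of a bounded countable family is not covered by countably many sets of small
diameter (for the uniform distance), then the family has the order property.
-/

set_option autoImplicit false

namespace Pool.Agent.H282.Stab

open Set Filter Topology

/-- no infinite order pattern at level `ε` -/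
def NoOrder (Q : Set (ℕ → ℝ)) (ε : ℝ) : Prop :=
  ¬ ∃ (F : ℕ → ℕ → ℝ) (u v : ℕ → ℕ), (∀ m, F m ∈ Q) ∧
    (∀ m n, m < n → |F m (u n) - F m (v n)| ≤ ε / 16) ∧
    ∀ m n, m ≤ n → ε / 2 ≤ |F n (u m) - F n (v m)|

theorem em_approx {Q : Set (ℕ → ℝ)} {ε : ℝ} (hε : 0 < ε) (hno : NoOrder Q ε) (q : ℕ → ℕ → ℝ)
    (hq : ∀ j, q j ∈ Q) (b : ℕ → ℝ)
    (hb : ∀ (s : Finset ℕ) (δ : ℝ), 0 < δ → ∃ j, ∀ i ∈ s, |q j i - b i| ≤ δ) :
    ∃ N k : ℕ, ∀ m n, (∀ j < N, |q j m - q j n| ≤ 1 / ((k : ℝ) + 1)) → |b m - b n| ≤ ε := by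
  classical
  by_contra hcon
  push Not at hcon
  apply hno
  obtain ⟨k, hk⟩ := exists_nat_one_div_lt (show (0 : ℝ) < ε / 16 by positivity)
  obtain ⟨f, hf1, hf2⟩ := exists_seq_of_forall_finset_exists
    (fun p : ℕ × ℕ × ℕ => ε < |b p.2.1 - b p.2.2| ∧ |q p.1 p.2.1 - b p.2.1| ≤ ε / 4 ∧
      |q p.1 p.2.2 - b p.2.2| ≤ ε / 4)
    (fun p p' : ℕ × ℕ × ℕ => |q p.1 p'.2.1 - q p.1 p'.2.2| ≤ ε / 16 ∧
      |q p'.1 p.2.1 - b p.2.1| ≤ ε / 4 ∧ |q p'.1 p.2.2 - b p.2.2| ≤ ε / 4)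
    (by
      intro s hs
      obtain ⟨u, v, h1, h2⟩ := hcon (s.sup (fun p => p.1) + 1) k
      obtain ⟨j, hj⟩ := hb (s.image (fun p => p.2.1) ∪ s.image (fun p => p.2.2) ∪ {u, v})
        (ε / 4) (by positivity)
      refine ⟨(j, u, v), ⟨h2, hj u (by simp), hj v (by simp)⟩, fun p hp => ⟨?_, ?_, ?_⟩⟩
      · refine (h1 p.1 ?_).trans hk.le
        exact Nat.lt_succ_of_le (Finset.le_sup (f := fun p : ℕ × ℕ × ℕ => p.1) hp)
      · refine hj _ ?_
        simp only [Finset.mem_union, Finset.mem_image]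
        exact Or.inl (Or.inl ⟨p, hp, rfl⟩)
      · refine hj _ ?_
        simp only [Finset.mem_union, Finset.mem_image]
        exact Or.inl (Or.inr ⟨p, hp, rfl⟩))
  refine ⟨fun m => q (f m).1, fun n => (f n).2.1, fun n => (f n).2.2, fun m => hq _,
    fun m n hmn => (hf2 m n hmn).1, fun m n hmn => ?_⟩
  have key : |q (f n).1 (f m).2.1 - b (f m).2.1| ≤ ε / 4 ∧
      |q (f n).1 (f m).2.2 - b (f m).2.2| ≤ ε / 4 := by
    rcases hmn.lt_or_eq with h | h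
    · exact (hf2 m n h).2
    · rw [h]; exact (hf1 n).2
  have h1 := (hf1 m).1
  have h2 := abs_le.1 key.1
  have h3 := abs_le.1 key.2
  rcases le_total 0 (b (f m).2.1 - b (f m).2.2) with h | h
  · rw [abs_of_nonneg h] at h1
    refine le_trans ?_ (le_abs_self _)
    linarith
  · rw [abs_of_nonpos h] at h1
    refine le_trans ?_ (neg_le_abs _)
    linarith

/-- finitely many coordinates suffice up to `δ` -/
lemma finite_net {C : ℝ} (q : ℕ → ℕ → ℝ) (hqC : ∀ j n, |q j n| ≤ C) (N : ℕ) {δ : ℝ}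
    (hδ : 0 < δ) : ∃ R : Finset ℕ, ∀ m, ∃ n ∈ R, ∀ j < N, |q j m - q j n| ≤ δ := by
  classical
  have htb : TotallyBounded (range fun m : ℕ => fun j : Fin N => q j m) := by
    refine TotallyBounded.subset ?_ (isCompact_univ_pi
      (fun _ : Fin N => isCompact_Icc (a := -C) (b := C))).totallyBounded
    rintro _ ⟨m, rfl⟩
    rw [mem_univ_pi]
    exact fun j => abs_le.1 (hqC j m)
  obtain ⟨t, ht1, ht2, ht3⟩ := Metric.finite_approx_of_totallyBounded htb δ hδ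
  choose g hg using fun x : t => ht1 x.2
  have := ht2.fintype
  refine ⟨Finset.univ.image g, fun m => ?_⟩
  obtain ⟨y, hy, hmy⟩ := mem_iUnion₂.1 (ht3 (mem_range_self m))
  refine ⟨g ⟨y, hy⟩, Finset.mem_image_of_mem _ (Finset.mem_univ _), fun j hj => ?_⟩
  have h1 := hg ⟨y, hy⟩
  rw [Metric.mem_ball] at hmy
  have h2 := (dist_pi_lt_iff hδ).1 hmy ⟨j, hj⟩
  rw [Real.dist_eq] at h2
  have h3 : q j (g ⟨y, hy⟩) = y ⟨j, hj⟩ := congrFun h1 ⟨j, hj⟩
  rw [h3]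
  exact h2.le

/-- **Separability of the closure.** -/
theorem em_cover {Q : Set (ℕ → ℝ)} {ε C : ℝ} (hε : 0 < ε) (hno : NoOrder Q ε) (q : ℕ → ℕ → ℝ)
    (hq : ∀ j, q j ∈ Q) (hqC : ∀ j n, |q j n| ≤ C) :
    ∃ (ι : Type) (_ : Countable ι) (S : ι → Set (ℕ → ℝ)), (∀ i, IsClosed (S i)) ∧
      (∀ i, ∀ b ∈ S i, ∀ b' ∈ S i, ∀ n, |b n - b' n| ≤ 4 * ε) ∧
      ∀ b : ℕ → ℝ, (∀ (s : Finset ℕ) (δ : ℝ), 0 < δ → ∃ j, ∀ i ∈ s, |q j i - b i| ≤ δ) →
        ∃ i, b ∈ S i := by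
  choose R hR using fun p : ℕ × ℕ => finite_net q hqC p.1
    (show (0 : ℝ) < 1 / ((p.2 : ℝ) + 1) by positivity)
  refine ⟨Σ p : ℕ × ℕ, (R p → ℤ), inferInstance, fun i =>
    {b | ∀ m n, (∀ j < i.1.1, |q j m - q j n| ≤ 1 / ((i.1.2 : ℝ) + 1)) → |b m - b n| ≤ ε} ∩
      {b | ∀ n : R i.1, |b n - ε * i.2 n| ≤ ε}, fun i => ?_, ?_, ?_⟩
  · refine IsClosed.inter ?_ ?_
    · simp only [ofPred_forall]
      refine isClosed_iInter fun m => isClosed_iInter fun n => isClosed_iInter fun _ => ?_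
      exact isClosed_le (by fun_prop) continuous_const
    · simp only [ofPred_forall]
      exact isClosed_iInter fun n => isClosed_le (by fun_prop) continuous_const
  · rintro i b ⟨hb1, hb2⟩ b' ⟨hb1', hb2'⟩ m
    obtain ⟨n, hn, hmn⟩ := hR i.1 m
    have h1 := abs_le.1 (hb1 m n hmn)
    have h2 := abs_le.1 (hb1' m n hmn)
    have h3 := abs_le.1 (hb2 ⟨n, hn⟩)
    have h4 := abs_le.1 (hb2' ⟨n, hn⟩)
    rw [abs_le]
    constructor <;> linarith
  · intro b hb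
    obtain ⟨N, k, hNk⟩ := em_approx hε hno q hq b hb
    refine ⟨⟨(N, k), fun n => ⌊b n / ε⌋⟩, hNk, fun n => ?_⟩
    have h1 := Int.floor_le (b n / ε)
    have h2 := Int.lt_floor_add_one (b n / ε)
    rw [le_div_iff₀ hε] at h1
    rw [div_lt_iff₀ hε] at h2
    rw [abs_le]
    constructor <;> nlinarith

end Pool.Agent.H282.Stab
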