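import Mathlib

/-!
# Minimal invariant compact sets, and fixed points of groups of affine isometries
-/

set_option autoImplicit false

namespace Pool.Agent.H282.Stab

open Set Filter Topology

/-- minimal nonempty compact sets with a property stable under intersections -/
theorem exists_minimal {X : Type*} [TopologicalSpace X] [T2Space X] (K : Set X)
    (hK : IsCompact K) (hne : K.Nonempty) (P : Set X → Prop) (hPK : P K)
    (hP : ∀ c : Set (Set X), c.Nonempty → (∀ s ∈ c, P s) → P (⋂₀ c)) :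
    ∃ M ⊆ K, IsClosed M ∧ M.Nonempty ∧ P M ∧
      ∀ M' ⊆ M, IsClosed M' → M'.Nonempty → P M' → M' = M := by
  obtain ⟨M, hMK, hM⟩ := zorn_superset_nonempty
    {M : Set X | M ⊆ K ∧ IsClosed M ∧ M.Nonempty ∧ P M} (fun c hc hchain hcne => by
      refine ⟨⋂₀ c, ⟨?_, isClosed_sInter fun s hs => (hc hs).2.1, ?_, hP c hcne
        fun s hs => (hc hs).2.2.2⟩, fun s hs => sInter_subset_of_mem hs⟩
      · obtain ⟨s, hs⟩ := hcne
        exact (sInter_subset_of_mem hs).trans (hc hs).1
      · have : Nonempty c := hcne.to_subtype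
        rw [sInter_eq_iInter]
        refine IsCompact.nonempty_iInter_of_directed_nonempty_isCompact_isClosed _ ?_
          (fun s => (hc s.2).2.2.1) (fun s => hK.of_isClosed_subset (hc s.2).2.1 (hc s.2).1)
          (fun s => (hc s.2).2.1)
        rintro ⟨s, hs⟩ ⟨t, ht⟩
        rcases hchain.total hs ht with h | h
        · exact ⟨⟨s, hs⟩, Subset.rfl, h⟩
        · exact ⟨⟨t, ht⟩, h, Subset.rfl⟩) K ⟨Subset.rfl, hK.isClosed, hne, hPK⟩
  have hp := hM.prop
  refine ⟨M, hMK, hp.2.1, hp.2.2.1, hp.2.2.2, fun M' hM' hcl hne' hP' => ?_⟩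
  exact hM'.antisymm (hM.le_of_le ⟨hM'.trans hp.1, hcl, hne', hP'⟩ hM')

/-- **Fixed points of groups of isometries** of a compact convex set (Kakutani for affine
isometries, Brodskii and Milman in general). -/
theorem kakutani {V : Type*} [NormedAddCommGroup V] [NormedSpace ℝ V] {G : Type*}
    (ρ : G → V → V) (hdist : ∀ g x y, ‖ρ g x - ρ g y‖ = ‖x - y‖)
    (hinv : ∀ g, ∃ h, ∀ x, ρ g (ρ h x) = x)
    (K : Set V) (hK : IsCompact K) (hKc : Convex ℝ K) (hne : K.Nonempty)
    (hKi : ∀ g, ∀ x ∈ K, ρ g x ∈ K) : ∃ x ∈ K, ∀ g, ρ g x = x := by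
  classical
  obtain ⟨M, hMK, hMc, hMne, ⟨hMx, hMi⟩, hmin⟩ := exists_minimal K hK hne
    (fun s => Convex ℝ s ∧ ∀ g, ∀ x ∈ s, ρ g x ∈ s) ⟨hKc, hKi⟩ (fun c _ hc =>
      ⟨convex_sInter fun s hs => (hc s hs).1, fun g x hx s hs => (hc s hs).2 g x (hx s hs)⟩)
  have hMcpt : IsCompact M := hK.of_isClosed_subset hMc hMK
  have hbdd : Bornology.IsBounded M := hMcpt.isBounded
  -- the diameter is zero
  have hD : Metric.diam M = 0 := by
    by_contra hD0
    have hDpos : 0 < Metric.diam M := lt_of_le_of_ne Metric.diam_nonneg (Ne.symm hD0)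
    obtain ⟨D, hDdef⟩ : ∃ D, D = Metric.diam M := ⟨_, rfl⟩
    rw [← hDdef] at hDpos
    have hdD : ∀ x ∈ M, ∀ y ∈ M, ‖x - y‖ ≤ D := fun x hx y hy => by
      rw [← dist_eq_norm, hDdef]
      exact Metric.dist_le_diam_of_mem hbdd hx hy
    obtain ⟨t, htM, htf, htc⟩ := Metric.finite_approx_of_totallyBounded hMcpt.totallyBounded
      (D / 2) (by positivity)
    obtain ⟨F, rfl⟩ : ∃ F : Finset V, (F : Set V) = t := ⟨htf.toFinset, by simp⟩
    have hFne : F.Nonempty := by
      obtain ⟨x, hx⟩ := hMne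
      obtain ⟨y, hy, -⟩ := mem_iUnion₂.1 (htc hx)
      exact ⟨y, hy⟩
    have hn : 0 < (F.card : ℝ) := by exact_mod_cast hFne.card_pos
    obtain ⟨n, hndef⟩ : ∃ n : ℝ, n = F.card := ⟨_, rfl⟩
    rw [← hndef] at hn
    have hn1 : 1 ≤ n := by rw [hndef]; exact_mod_cast hFne.card_pos
    obtain ⟨u, hu⟩ : ∃ u, u = ∑ x ∈ F, (1 / n) • x := ⟨_, rfl⟩
    have huM : u ∈ M := by
      rw [hu]
      refine hMx.sum_mem (fun _ _ => by positivity) ?_ (fun x hx => htM hx)
      rw [Finset.sum_const, nsmul_eq_mul, ← hndef]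
      field_simp
    obtain ⟨r, hr⟩ : ∃ r, r = D * (1 - 1 / (2 * n)) := ⟨_, rfl⟩
    have hrD : r < D := by
      have : 0 < D * (1 / (2 * n)) := by positivity
      rw [hr]; linarith
    have huk : ∀ k ∈ M, ‖u - k‖ ≤ r := by
      intro k hk
      obtain ⟨y, hy, hky⟩ := mem_iUnion₂.1 (htc hk)
      have hyF : y ∈ F := hy
      have h1 : u - k = ∑ x ∈ F, (1 / n) • (x - k) := by
        simp only [smul_sub]
        rw [Finset.sum_sub_distrib, ← hu, Finset.sum_const, ← Nat.cast_smul_eq_nsmul ℝ, ← hndef,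
          smul_smul, mul_one_div_cancel hn.ne', one_smul]
      have h2 : ‖u - k‖ ≤ ∑ x ∈ F, (1 / n) * ‖x - k‖ := by
        rw [h1]
        refine (norm_sum_le _ _).trans (Finset.sum_le_sum fun x _ => ?_)
        rw [norm_smul, Real.norm_of_nonneg (by positivity)]
      have h3 : ∑ x ∈ F, (1 / n) * ‖x - k‖ ≤
          ∑ x ∈ F, (1 / n) * (D - if x = y then D / 2 else 0) := by
        refine Finset.sum_le_sum fun x hx => ?_
        refine mul_le_mul_of_nonneg_left ?_ (by positivity)
        split_ifs with hxy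
        · have h4 : ‖y - k‖ < D / 2 := by
            rw [← dist_eq_norm, dist_comm]; exact hky
          rw [hxy]; linarith
        · rw [sub_zero]; exact hdD x (htM hx) k hk
      have h5 : ∑ x ∈ F, (1 / n) * (D - if x = y then D / 2 else 0) = r := by
        rw [← Finset.mul_sum, Finset.sum_sub_distrib, Finset.sum_const, nsmul_eq_mul, ← hndef,
          Finset.sum_ite_eq' F y, if_pos hyF, hr]
        field_simp
      linarith
    have hM' := hmin {w | w ∈ M ∧ ∀ k ∈ M, ‖w - k‖ ≤ r} (fun w hw => hw.1) (by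
        have : {w | w ∈ M ∧ ∀ k ∈ M, ‖w - k‖ ≤ r} = M ∩ ⋂ k ∈ M, {w | ‖w - k‖ ≤ r} := by
          ext w; simp
        rw [this]
        refine hMc.inter (isClosed_biInter fun k _ => ?_)
        exact isClosed_le (by fun_prop) continuous_const) ⟨u, huM, huk⟩ (by
        refine ⟨fun x hx y hy a b ha hb hab => ⟨hMx hx.1 hy.1 ha hb hab, fun k hk => ?_⟩,
          fun g x hx => ⟨hMi g x hx.1, fun k hk => ?_⟩⟩
        · have h1 : a • x + b • y - k = a • (x - k) + b • (y - k) := by
            rw [smul_sub, smul_sub]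
            have : k = a • k + b • k := by rw [← add_smul, hab, one_smul]
            nth_rw 1 [this]
            abel
          rw [h1]
          refine (norm_add_le _ _).trans ?_
          rw [norm_smul, norm_smul, Real.norm_of_nonneg ha, Real.norm_of_nonneg hb]
          have h2 := mul_le_mul_of_nonneg_left (hx.2 k hk) ha
          have h3 := mul_le_mul_of_nonneg_left (hy.2 k hk) hb
          have h4 : a * r + b * r = r := by rw [← add_mul, hab, one_mul]
          linarith
        · obtain ⟨h, hh⟩ := hinv g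
          rw [← hh k, hdist]
          exact hx.2 _ (hMi h k hk))
    have hle : Metric.diam M ≤ r := by
      obtain ⟨x, hx⟩ := hMne
      refine Metric.diam_le_of_forall_dist_le ?_ fun x hx y hy => ?_
      · exact (norm_nonneg _).trans (huk x hx)
      · rw [← hM'] at hx
        rw [dist_eq_norm]
        exact hx.2 y hy
    rw [← hDdef] at hle
    linarith
  obtain ⟨x, hx⟩ := hMne
  refine ⟨x, hMK hx, fun g => ?_⟩
  have h1 := Metric.dist_le_diam_of_mem hbdd (hMi g x hx) hx
  rw [hD] at h1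
  exact dist_le_zero.1 h1

/-- a totally bounded invariant set under a group of linear isometries of a Banach space has a fixed
point in its closed convex hull -/
theorem fixed_of_totallyBounded {V : Type*} [NormedAddCommGroup V] [NormedSpace ℝ V]
    [CompleteSpace V] {G : Type*} (ρ : G → V →ₗ[ℝ] V) (hn : ∀ g x, ‖ρ g x‖ = ‖x‖)
    (hinv : ∀ g, ∃ h, ∀ x, ρ g (ρ h x) = x) (N : Set V) (hne : N.Nonempty)
    (hNi : ∀ g, ∀ x ∈ N, ρ g x ∈ N)
    (htb : ∀ ε : ℝ, 0 < ε → ∃ t : Finset V, ∀ x ∈ N, ∃ y ∈ t, ‖x - y‖ < ε) :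
    ∃ x : V, (∀ g, ρ g x = x) ∧ ∀ P : Set V, IsClosed P → Convex ℝ P → N ⊆ P → x ∈ P := by
  have hNtb : TotallyBounded N := by
    rw [Metric.totallyBounded_iff]
    intro ε hε
    obtain ⟨t, ht⟩ := htb ε hε
    refine ⟨t, t.finite_toSet, fun x hx => ?_⟩
    obtain ⟨y, hy, hxy⟩ := ht x hx
    exact mem_iUnion₂.2 ⟨y, hy, by rw [Metric.mem_ball, dist_eq_norm]; exact hxy⟩
  have hdist : ∀ g x y, ‖ρ g x - ρ g y‖ = ‖x - y‖ := fun g x y => by rw [← map_sub, hn]
  have hKcpt : IsCompact (closure (convexHull ℝ N)) :=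
    isCompact_iff_totallyBounded_isComplete.2
      ⟨hNtb.convexHull.closure, isClosed_closure.isComplete⟩
  have hKi : ∀ g, ∀ x ∈ closure (convexHull ℝ N), ρ g x ∈ closure (convexHull ℝ N) := by
    intro g x hx
    have hcont : Continuous (ρ g) := by
      refine (LipschitzWith.of_dist_le_mul (K := 1) fun x y => ?_).continuous
      rw [dist_eq_norm, dist_eq_norm, hdist, NNReal.coe_one, one_mul]
    have h1 : ρ g '' (convexHull ℝ N) ⊆ convexHull ℝ N := by
      rw [(ρ g).image_convexHull]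
      exact convexHull_mono (image_subset_iff.2 fun x hx => hNi g x hx)
    exact closure_mono h1 (image_closure_subset_closure_image hcont (mem_image_of_mem _ hx))
  obtain ⟨x, hx, hfix⟩ := kakutani (fun g x => ρ g x) hdist hinv _ hKcpt
    (convex_convexHull ℝ N).closure hne.convexHull.closure hKi
  exact ⟨x, hfix, fun P hP hPc hNP => closure_minimal (convexHull_min hNP hPc) hP hx⟩

end Pool.Agent.H282.Stab
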