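import Pool.Agent.H282.Stab.Fix
import Pool.Agent.H282.Stab.Em

/-!
# An invariant inner product from a form whose orbit has no order pattern
-/

set_option autoImplicit false

namespace Pool.Agent.H282.Stab

open Set Filter Topology

variable {E : Type} [NormedAddCommGroup E] [NormedSpace ℝ E]

/-- bounded symmetric bilinear forms, bounded below, as functions -/
structure IsForm (c C : ℝ) (b : E → E → ℝ) : Prop where
  symm : ∀ v w, b v w = b w v
  add : ∀ u v w, b (u + v) w = b u w + b v w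
  smul : ∀ (r : ℝ) v w, b (r • v) w = r * b v w
  lower : ∀ v, c * ‖v‖ ^ 2 ≤ b v v
  upper : ∀ v w, |b v w| ≤ C * ‖v‖ * ‖w‖

/-- the action of the isometries on functions of two variables -/
def act (g : E ≃ₗᵢ[ℝ] E) (b : E → E → ℝ) : E → E → ℝ := fun v w => b (g.symm v) (g.symm w)

lemma isForm_act {c C : ℝ} {b : E → E → ℝ} (hb : IsForm c C b) (g : E ≃ₗᵢ[ℝ] E) :
    IsForm c C (act g b) where
  symm v w := hb.symm _ _
  add u v w := by simp only [act, map_add]; exact hb.add _ _ _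
  smul r v w := by simp only [act, map_smul]; exact hb.smul _ _ _
  lower v := by
    have := hb.lower (g.symm v)
    rwa [LinearIsometryEquiv.norm_map] at this
  upper v w := by
    have := hb.upper (g.symm v) (g.symm w)
    rwa [LinearIsometryEquiv.norm_map, LinearIsometryEquiv.norm_map] at this

lemma continuous_act (g : E ≃ₗᵢ[ℝ] E) : Continuous (act (E := E) g) := by
  unfold act
  fun_prop

lemma act_act (g h : E ≃ₗᵢ[ℝ] E) (b : E → E → ℝ) : act g (act h b) = act (g * h) b := by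
  funext v w
  rfl

lemma isClosed_isForm (c C : ℝ) : IsClosed {b : E → E → ℝ | IsForm c C b} := by
  have h : {b : E → E → ℝ | IsForm c C b} =
      (⋂ v, ⋂ w, {b | b v w = b w v}) ∩ ((⋂ u, ⋂ v, ⋂ w, {b | b (u + v) w = b u w + b v w}) ∩
        ((⋂ r : ℝ, ⋂ v, ⋂ w, {b | b (r • v) w = r * b v w}) ∩
          ((⋂ v, {b | c * ‖v‖ ^ 2 ≤ b v v}) ∩ ⋂ v, ⋂ w, {b | |b v w| ≤ C * ‖v‖ * ‖w‖}))) := by
    ext b
    simp only [mem_inter_iff, mem_iInter]
    refine ⟨fun h => ?_, fun h => ⟨h.1, h.2.1, h.2.2.1, h.2.2.2.1, h.2.2.2.2⟩⟩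
    have h : IsForm c C b := h
    exact ⟨h.symm, h.add, h.smul, h.lower, h.upper⟩
  rw [h]
  refine IsClosed.inter ?_ (IsClosed.inter ?_ (IsClosed.inter ?_ (IsClosed.inter ?_ ?_)))
  · exact isClosed_iInter fun v => isClosed_iInter fun w => isClosed_eq (by fun_prop) (by fun_prop)
  · exact isClosed_iInter fun u => isClosed_iInter fun v => isClosed_iInter fun w =>
      isClosed_eq (by fun_prop) (by fun_prop)
  · exact isClosed_iInter fun u => isClosed_iInter fun v => isClosed_iInter fun w =>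
      isClosed_eq (by fun_prop) (by fun_prop)
  · exact isClosed_iInter fun v => isClosed_le (by fun_prop) (by fun_prop)
  · exact isClosed_iInter fun v => isClosed_iInter fun w => isClosed_le (by fun_prop) (by fun_prop)

lemma isCompact_isForm (c C : ℝ) : IsCompact {b : E → E → ℝ | IsForm c C b} := by
  refine IsCompact.of_isClosed_subset (isCompact_univ_pi fun v : E => isCompact_univ_pi
    fun w : E => isCompact_Icc (a := -(C * ‖v‖ * ‖w‖)) (b := C * ‖v‖ * ‖w‖))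
    (isClosed_isForm c C) fun b hb => ?_
  have hb : IsForm c C b := hb
  rw [mem_univ_pi]
  intro v
  rw [mem_univ_pi]
  intro w
  exact abs_le.1 (hb.upper v w)

/-- polarization -/
lemma form_polar {c C : ℝ} {b b' : E → E → ℝ} (hb : IsForm c C b) (hb' : IsForm c C b') {δ : ℝ}
    (hδ : 0 ≤ δ) (h : ∀ v, |b v v - b' v v| ≤ δ * ‖v‖ ^ 2) (v w : E) :
    |b v w - b' v w| ≤ 2 * δ * ‖v‖ * ‖w‖ := by
  -- unit vectors first
  have key : ∀ v w : E, ‖v‖ = 1 → ‖w‖ = 1 → |b v w - b' v w| ≤ 2 * δ := by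
    intro v w hv hw
    have pol : ∀ {β : E → E → ℝ}, IsForm c C β → 4 * β v w = β (v + w) (v + w)
        - β (v - w) (v - w) := by
      intro β hβ
      have e1 : v - w = v + (-1 : ℝ) • w := by rw [neg_one_smul, sub_eq_add_neg]
      have ex : ∀ x y : E, β (x + y) (x + y) = β x x + 2 * β x y + β y y := by
        intro x y
        rw [hβ.add, hβ.symm x (x + y), hβ.add, hβ.symm y (x + y), hβ.add, hβ.symm y x]
        ring
      rw [e1, ex, ex, hβ.symm v ((-1 : ℝ) • w), hβ.smul, hβ.smul, hβ.symm w ((-1 : ℝ) • w),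
        hβ.smul, hβ.symm w v]
      ring
    have p1 := pol hb
    have p2 := pol hb'
    have n1 : ‖v + w‖ ^ 2 ≤ 4 := by
      have := norm_add_le v w
      have := norm_nonneg (v + w)
      nlinarith
    have n2 : ‖v - w‖ ^ 2 ≤ 4 := by
      have := norm_sub_le v w
      have := norm_nonneg (v - w)
      nlinarith
    have q1 := abs_le.1 ((h (v + w)).trans (mul_le_mul_of_nonneg_left n1 hδ))
    have q2 := abs_le.1 ((h (v - w)).trans (mul_le_mul_of_nonneg_left n2 hδ))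
    rw [abs_le]
    constructor <;> linarith
  rcases eq_or_ne v 0 with rfl | hv
  · have z : ∀ {β : E → E → ℝ}, IsForm c C β → β 0 w = 0 := by
      intro β hβ
      have := hβ.smul 0 0 w
      rwa [zero_smul, zero_mul] at this
    rw [z hb, z hb']
    simp
  rcases eq_or_ne w 0 with rfl | hw
  · have z : ∀ {β : E → E → ℝ}, IsForm c C β → β v 0 = 0 := by
      intro β hβ
      have := hβ.smul 0 0 v
      rw [zero_smul, zero_mul] at this
      rw [hβ.symm]; exact this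
    rw [z hb, z hb']
    simp
  have hv' := norm_pos_iff.2 hv
  have hw' := norm_pos_iff.2 hw
  have k := key (‖v‖⁻¹ • v) (‖w‖⁻¹ • w)
    (by rw [norm_smul, norm_inv, norm_norm, inv_mul_cancel₀ hv'.ne'])
    (by rw [norm_smul, norm_inv, norm_norm, inv_mul_cancel₀ hw'.ne'])
  have sm : ∀ {β : E → E → ℝ}, IsForm c C β → β (‖v‖⁻¹ • v) (‖w‖⁻¹ • w) =
      ‖v‖⁻¹ * ‖w‖⁻¹ * β v w := by
    intro β hβ
    rw [hβ.smul, hβ.symm v (‖w‖⁻¹ • w), hβ.smul, hβ.symm w v]
    ring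
  rw [sm hb, sm hb', ← mul_sub, abs_mul, abs_of_pos (by positivity : 0 < ‖v‖⁻¹ * ‖w‖⁻¹)] at k
  calc |b v w - b' v w| = ‖v‖ * ‖w‖ * (‖v‖⁻¹ * ‖w‖⁻¹ * |b v w - b' v w|) := by
        field_simp
    _ ≤ ‖v‖ * ‖w‖ * (2 * δ) := by gcongr
    _ = 2 * δ * ‖v‖ * ‖w‖ := by ring

/-- closeness on a dense sequence of the unit ball -/
lemma near_of_dense {c C : ℝ} {b b' : E → E → ℝ} (hb : IsForm c C b) (hb' : IsForm c C b')
    {d : ℕ → E} (hd : ∀ n, ‖d n‖ ≤ 1)
    (hdd : ∀ v : E, ‖v‖ ≤ 1 → ∀ δ : ℝ, 0 < δ → ∃ n, ‖d n - v‖ < δ) {ε : ℝ}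
    (h : ∀ n, |b (d n) (d n) - b' (d n) (d n)| ≤ ε) (v : E) :
    |b v v - b' v v| ≤ ε * ‖v‖ ^ 2 := by
  -- the unit ball first
  have lip : ∀ {β : E → E → ℝ}, IsForm c C β → ∀ v w : E, ‖v‖ ≤ 1 → ‖w‖ ≤ 1 →
      |β v v - β w w| ≤ 2 * |C| * ‖v - w‖ := by
    intro β hβ v w hv hw
    have e1 : β v v - β w w = β (v - w) v + β (v - w) w := by
      have e2 : v - w = v + (-1 : ℝ) • w := by rw [neg_one_smul, sub_eq_add_neg]
      rw [e2, hβ.add, hβ.add, hβ.smul, hβ.smul, hβ.symm w v]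
      ring
    rw [e1]
    have f1 := hβ.upper (v - w) v
    have f2 := hβ.upper (v - w) w
    have f3 : C * ‖v - w‖ * ‖v‖ ≤ |C| * ‖v - w‖ := by
      have g1 : C * ‖v - w‖ * ‖v‖ ≤ |C| * ‖v - w‖ * ‖v‖ := by
        gcongr; exact le_abs_self _
      have g2 : |C| * ‖v - w‖ * ‖v‖ ≤ |C| * ‖v - w‖ * 1 := by gcongr
      linarith
    have f4 : C * ‖v - w‖ * ‖w‖ ≤ |C| * ‖v - w‖ := by
      have g1 : C * ‖v - w‖ * ‖w‖ ≤ |C| * ‖v - w‖ * ‖w‖ := by
        gcongr; exact le_abs_self _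
      have g2 : |C| * ‖v - w‖ * ‖w‖ ≤ |C| * ‖v - w‖ * 1 := by gcongr
      linarith
    have := abs_add_le (β (v - w) v) (β (v - w) w)
    linarith
  have key : ∀ v : E, ‖v‖ ≤ 1 → |b v v - b' v v| ≤ ε := by
    intro v hv
    refine le_of_forall_pos_le_add fun η hη => ?_
    obtain ⟨n, hn⟩ := hdd v hv (η / (4 * (|C| + 1))) (by positivity)
    have h1 := abs_le.1 (lip hb v (d n) hv (hd n))
    have h2 := abs_le.1 (lip hb' v (d n) hv (hd n))
    have h3 := abs_le.1 (h n)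
    have h4 : 2 * |C| * ‖v - d n‖ ≤ η / 2 := by
      rw [norm_sub_rev] at hn
      calc 2 * |C| * ‖v - d n‖ ≤ 2 * (|C| + 1) * (η / (4 * (|C| + 1))) := by gcongr; linarith
        _ = η / 2 := by field_simp; ring
    rw [abs_le]
    constructor <;> linarith
  rcases eq_or_ne v 0 with rfl | hv
  · have z : ∀ {β : E → E → ℝ}, IsForm c C β → β 0 0 = 0 := by
      intro β hβ
      have := hβ.smul 0 0 (0 : E)
      rwa [zero_smul, zero_mul] at this
    rw [z hb, z hb']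
    simp
  have hv' := norm_pos_iff.2 hv
  have k := key (‖v‖⁻¹ • v) (by rw [norm_smul, norm_inv, norm_norm, inv_mul_cancel₀ hv'.ne'])
  have sm : ∀ {β : E → E → ℝ}, IsForm c C β → β (‖v‖⁻¹ • v) (‖v‖⁻¹ • v) =
      (‖v‖⁻¹) ^ 2 * β v v := by
    intro β hβ
    rw [hβ.smul, hβ.symm v (‖v‖⁻¹ • v), hβ.smul]
    ring
  rw [sm hb, sm hb', ← mul_sub, abs_mul, abs_of_pos (by positivity : 0 < (‖v‖⁻¹) ^ 2)] at k
  calc |b v v - b' v v| = ‖v‖ ^ 2 * ((‖v‖⁻¹) ^ 2 * |b v v - b' v v|) := by field_simp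
    _ ≤ ‖v‖ ^ 2 * ε := by gcongr
    _ = ε * ‖v‖ ^ 2 := by ring

end Pool.Agent.H282.Stab
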