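import Mathlib

/-!
# Equivalent inner products and Hilbert spaces
-/

set_option autoImplicit false

namespace Pool.Agent.H282.Stab

open Set Filter Topology

/-- a copy of `E` which will carry the new norm -/
def Cp (E : Type) : Type := E

section
variable (E : Type) [NormedAddCommGroup E] [NormedSpace ℝ E]
instance : AddCommGroup (Cp E) := inferInstanceAs (AddCommGroup E)
instance : Module ℝ (Cp E) := inferInstanceAs (Module ℝ E)
end

/-- an equivalent inner product gives a Hilbert space -/
theorem hilbert_of_form {E : Type} [NormedAddCommGroup E] [NormedSpace ℝ E] [CompleteSpace E]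
    (B : E →L[ℝ] E →L[ℝ] ℝ) {c : ℝ} (hc : 0 < c) (hsymm : ∀ u w, B u w = B w u)
    (hlow : ∀ w, c * ‖w‖ ^ 2 ≤ B w w) :
    ∃ (H : Type) (_ : NormedAddCommGroup H) (_ : InnerProductSpace ℝ H) (_ : CompleteSpace H)
      (Φ : E ≃L[ℝ] H), ∀ u, ‖Φ u‖ ^ 2 = B u u := by
  let core : InnerProductSpace.Core ℝ (Cp E) :=
    { inner := fun u w => B (show E from u) (show E from w)
      conj_inner_symm := fun u w => by
        show B (show E from w) (show E from u) = B (show E from u) (show E from w)
        exact hsymm _ _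
      re_inner_nonneg := fun u => by
        show 0 ≤ B (show E from u) (show E from u)
        exact le_trans (by positivity) (hlow _)
      add_left := fun u v w => by
        show B ((show E from u) + (show E from v)) (show E from w) = _
        rw [map_add]; rfl
      smul_left := fun u w r => by
        show B (r • (show E from u)) (show E from w) = _
        rw [map_smul]; rfl
      definite := fun u hu => by
        have h1 : c * ‖(show E from u)‖ ^ 2 ≤ 0 := (hlow _).trans (le_of_eq hu)
        have h2 : ‖(show E from u)‖ ^ 2 ≤ 0 := by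
          by_contra hcon
          push Not at hcon
          nlinarith
        have h3 : ‖(show E from u)‖ = 0 := by
          have := sq_nonneg ‖(show E from u)‖
          exact pow_eq_zero_iff (n := 2) (by norm_num) |>.1 (le_antisymm h2 this)
        exact norm_eq_zero.1 h3 }
  letI i1 : NormedAddCommGroup (Cp E) := core.toNormedAddCommGroup
  letI i2 : InnerProductSpace ℝ (Cp E) := InnerProductSpace.ofCore core.toCore
  have hn : ∀ u : Cp E, ‖u‖ ^ 2 = B (show E from u) (show E from u) := by
    intro u
    rw [← real_inner_self_eq_norm_sq]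
    rfl
  have hup : ∀ w : E, B w w ≤ ‖B‖ * ‖w‖ ^ 2 := by
    intro w
    have := B.le_opNorm₂ w w
    rw [Real.norm_eq_abs] at this
    have h2 := le_abs_self (B w w)
    nlinarith
  have hC : 0 ≤ ‖B‖ := by positivity
  let e0 : E ≃ₗ[ℝ] Cp E := LinearEquiv.refl ℝ E
  let e : E ≃L[ℝ] Cp E := e0.toContinuousLinearEquivOfBounds (Real.sqrt ‖B‖) (Real.sqrt c)⁻¹
    (fun y => by
      have h1 : ‖e0 y‖ ^ 2 ≤ (Real.sqrt ‖B‖ * ‖y‖) ^ 2 := by
        rw [hn, mul_pow, Real.sq_sqrt hC]
        exact hup y
      exact (abs_le_of_sq_le_sq' h1 (by positivity)).2)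
    (fun y => by
      have h1 : (Real.sqrt c * ‖e0.symm y‖) ^ 2 ≤ ‖y‖ ^ 2 := by
        rw [hn, mul_pow, Real.sq_sqrt hc.le]
        exact hlow _
      have h2 : Real.sqrt c * ‖e0.symm y‖ ≤ ‖y‖ := (abs_le_of_sq_le_sq' h1 (norm_nonneg _)).2
      rw [inv_mul_eq_div, le_div_iff₀ (Real.sqrt_pos.2 hc), mul_comm]
      exact h2)
  have hcomp : CompleteSpace (Cp E) := by
    rw [← completeSpace_congr (e := e.toEquiv) e.isUniformEmbedding]
    infer_instance
  exact ⟨Cp E, i1, i2, hcomp, e, fun u => hn (e u)⟩

variable {E : Type} [NormedAddCommGroup E] [NormedSpace ℝ E]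

/-- a convex-transitive norm with an invariant equivalent inner product is given by an inner
product -/
theorem norm_sq_of_convexTransitive (B : E →L[ℝ] E →L[ℝ] ℝ) {c : ℝ} (hc : 0 < c)
    (hsymm : ∀ u w, B u w = B w u) (hlow : ∀ w, c * ‖w‖ ^ 2 ≤ B w w)
    (hinv : ∀ (T : E ≃ₗᵢ[ℝ] E) (v w : E), B (T v) (T w) = B v w)
    (hct : ∀ x y : E, ‖x‖ = 1 → ‖y‖ = 1 →
      y ∈ closure (convexHull ℝ {z : E | ∃ T : E ≃ₗᵢ[ℝ] E, T x = z})) :
    ∃ κ : ℝ, 0 < κ ∧ ∀ v, B v v = κ * ‖v‖ ^ 2 := by
  have hmono : ∀ x y : E, ‖x‖ = 1 → ‖y‖ = 1 → B y y ≤ B x x := by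
    intro x y hx hy
    have h1 : closure (convexHull ℝ {z : E | ∃ T : E ≃ₗᵢ[ℝ] E, T x = z}) ⊆
        {z | B z z ≤ B x x} := by
      refine closure_minimal (convexHull_min ?_ ?_) (isClosed_le (by fun_prop) (by fun_prop))
      · rintro _ ⟨T, rfl⟩
        exact (hinv T x x).le
      · intro u hu w hw s t hs ht hst
        have hu : B u u ≤ B x x := hu
        have hw : B w w ≤ B x x := hw
        show B (s • u + t • w) (s • u + t • w) ≤ B x x
        have e1 : B (s • u + t • w) (s • u + t • w) = s * B u u + t * B w w -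
            s * t * B (u - w) (u - w) := by
          have ht' : t = 1 - s := by linarith
          simp only [map_add, map_sub, map_smul, _root_.add_apply, _root_.sub_apply,
            _root_.smul_apply, smul_eq_mul]
          rw [hsymm w u, ht']
          ring
        have e2 : 0 ≤ B (u - w) (u - w) := le_trans (by positivity) (hlow _)
        have e3 : 0 ≤ s * t * B (u - w) (u - w) := by positivity
        have e4 := mul_le_mul_of_nonneg_left hu hs
        have e5 := mul_le_mul_of_nonneg_left hw ht
        have e6 : s * B x x + t * B x x = B x x := by rw [← add_mul, hst, one_mul]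
        linarith
    exact h1 (hct x y hx hy)
  by_cases hE : ∃ u : E, ‖u‖ = 1
  · obtain ⟨u, hu⟩ := hE
    refine ⟨B u u, ?_, fun v => ?_⟩
    · have := hlow u
      rw [hu] at this
      linarith
    · rcases eq_or_ne v 0 with rfl | hv
      · simp
      have hv' := norm_pos_iff.2 hv
      have h1 : ‖‖v‖⁻¹ • v‖ = 1 := by
        rw [norm_smul, norm_inv, norm_norm, inv_mul_cancel₀ hv'.ne']
      have h2 := le_antisymm (hmono u _ hu h1) (hmono _ u h1 hu)
      simp only [map_smul, _root_.smul_apply, smul_eq_mul] at h2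
      field_simp at h2
      linarith
  · refine ⟨1, one_pos, fun v => ?_⟩
    have h0 : v = 0 := by
      by_contra hv
      apply hE
      refine ⟨‖v‖⁻¹ • v, ?_⟩
      rw [norm_smul, norm_inv, norm_norm, inv_mul_cancel₀ (norm_ne_zero_iff.2 hv)]
    rw [h0]
    simp

end Pool.Agent.H282.Stab
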