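import Pool.Agent.H282.Stab.Form

/-!
# The fixed form
-/

set_option autoImplicit false

namespace Pool.Agent.H282.Stab

open Set Filter Topology

variable {E : Type} [NormedAddCommGroup E] [NormedSpace ℝ E]

/-- a minimal invariant set of forms in the closure of an orbit without order patterns is covered
by finitely many sets of small diameter -/
theorem minimal_cover {c C : ℝ} (a : E → E → ℝ) (ha : IsForm c C a)
    (d : ℕ → E) (hd : ∀ n, ‖d n‖ ≤ 1)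
    (hdd : ∀ v : E, ‖v‖ ≤ 1 → ∀ δ : ℝ, 0 < δ → ∃ n, ‖d n - v‖ < δ)
    (M : Set (E → E → ℝ)) (hMcl : IsClosed M) (hMne : M.Nonempty)
    (hMsub : M ⊆ closure (range fun g : E ≃ₗᵢ[ℝ] E => act g a))
    (hMi : ∀ g : E ≃ₗᵢ[ℝ] E, ∀ b ∈ M, act g b ∈ M)
    (hmin : ∀ M' ⊆ M, IsClosed M' → M'.Nonempty →
      (∀ g : E ≃ₗᵢ[ℝ] E, ∀ b ∈ M', act g b ∈ M') → M' = M) {ε : ℝ} (hε : 0 < ε)
    (hno : NoOrder {f : ℕ → ℝ | ∃ g : E ≃ₗᵢ[ℝ] E, f = fun n => act g a (d n) (d n)} ε) :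
    ∃ (t : Finset (E ≃ₗᵢ[ℝ] E)) (U : Set (E → E → ℝ)), (∀ b ∈ M, ∃ g ∈ t, act g b ∈ U) ∧
      ∀ b ∈ M, ∀ b' ∈ M, b ∈ U → b' ∈ U → ∀ v w, |b v w - b' v w| ≤ 8 * ε * ‖v‖ * ‖w‖ := by
  classical
  have hKf : closure (range fun g : E ≃ₗᵢ[ℝ] E => act g a) ⊆ {b | IsForm c C b} := by
    refine closure_minimal ?_ (isClosed_isForm c C)
    rintro _ ⟨g, rfl⟩
    exact isForm_act ha g
  have hMf : ∀ b ∈ M, IsForm c C b := fun b hb => hKf (hMsub hb)
  have hMcpt : IsCompact M := (isCompact_isForm c C).of_isClosed_subset hMcl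
    (hMsub.trans hKf)
  -- countably many approximants
  obtain ⟨π, hπ⟩ : ∃ π : (E → E → ℝ) → ℕ → ℝ, π = fun b n => b (d n) (d n) := ⟨_, rfl⟩
  have hπc : Continuous π := by rw [hπ]; fun_prop
  obtain ⟨Q, hQ⟩ : ∃ Q : Set (ℕ → ℝ), Q = {f : ℕ → ℝ | ∃ g : E ≃ₗᵢ[ℝ] E,
    f = fun n => act g a (d n) (d n)} := ⟨_, rfl⟩
  rw [← hQ] at hno
  have hQne : Nonempty Q := ⟨⟨fun n => act 1 a (d n) (d n), by rw [hQ]; exact ⟨1, rfl⟩⟩⟩
  obtain ⟨q, hqQ, hqd⟩ : ∃ q : ℕ → ℕ → ℝ, (∀ j, q j ∈ Q) ∧ Q ⊆ closure (range q) := by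
    refine ⟨fun j => (TopologicalSpace.denseSeq Q j : ℕ → ℝ), fun j => Subtype.coe_prop _, ?_⟩
    intro f hf
    have h1 := TopologicalSpace.denseRange_denseSeq Q ⟨f, hf⟩
    have h2 := image_closure_subset_closure_image (f := (Subtype.val : Q → ℕ → ℝ))
      continuous_subtype_val (mem_image_of_mem _ h1)
    rw [← range_comp] at h2
    exact h2
  have hqC : ∀ j n, |q j n| ≤ |C| := by
    intro j n
    have h1 := hqQ j
    rw [hQ] at h1
    obtain ⟨g, hg⟩ := h1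
    rw [hg]
    refine ((isForm_act ha g).upper _ _).trans ?_
    have h2 := hd n
    have h3 := norm_nonneg (d n)
    calc C * ‖d n‖ * ‖d n‖ ≤ |C| * ‖d n‖ * ‖d n‖ := by gcongr; exact le_abs_self _
      _ ≤ |C| * 1 * 1 := by gcongr
      _ = |C| := by ring
  obtain ⟨ι, hι, S, hS1, hS2, hS3⟩ := em_cover hε hno q hqQ hqC
  -- the closure is covered
  have hcov : ∀ b ∈ M, ∃ i, π b ∈ S i := by
    intro b hb
    have h1 : π b ∈ closure (range q) := by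
      have h2 : π b ∈ closure (π '' range fun g : E ≃ₗᵢ[ℝ] E => act g a) :=
        image_closure_subset_closure_image hπc (mem_image_of_mem _ (hMsub hb))
      refine closure_minimal ?_ isClosed_closure h2
      rintro _ ⟨_, ⟨g, rfl⟩, rfl⟩
      refine hqd ?_
      rw [hQ, hπ]
      exact ⟨g, rfl⟩
    refine hS3 _ fun s δ hδ => ?_
    have h3 : IsOpen {f : ℕ → ℝ | ∀ i ∈ s, |f i - π b i| < δ} := by
      have : {f : ℕ → ℝ | ∀ i ∈ s, |f i - π b i| < δ} = ⋂ i ∈ s, {f | |f i - π b i| < δ} := by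
        ext f; simp
      rw [this]
      exact isOpen_biInter_finset fun i _ => isOpen_lt (by fun_prop) continuous_const
    obtain ⟨_, h4, ⟨j, rfl⟩⟩ := mem_closure_iff.1 h1 _ h3 (by
      intro i _
      rw [sub_self, abs_zero]; exact hδ)
    exact ⟨j, fun i hi => (h4 i hi).le⟩
  -- Baire
  have hcs : CompactSpace M := isCompact_iff_compactSpace.1 hMcpt
  have hne : Nonempty M := hMne.to_subtype
  obtain ⟨i, V, hV, hVne⟩ : ∃ (i : ι) (V : Set M), IsOpen V ∧ V.Nonempty ∧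
      ∀ b ∈ V, π (b : E → E → ℝ) ∈ S i := by
    obtain ⟨i, hi⟩ := nonempty_interior_of_iUnion_of_closed
      (f := fun i => {b : M | π (b : E → E → ℝ) ∈ S i})
      (fun i => (hS1 i).preimage (hπc.comp continuous_subtype_val)) (by
        rw [eq_univ_iff_forall]
        intro b
        obtain ⟨i, hi⟩ := hcov b b.2
        exact mem_iUnion.2 ⟨i, hi⟩)
    refine ⟨i, _, isOpen_interior, hi, fun b hb => ?_⟩
    have h5 : b ∈ {b : M | π (b : E → E → ℝ) ∈ S i} := interior_subset hb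
    exact h5
  obtain ⟨⟨b₀, hb₀⟩, hVS⟩ := hVne
  obtain ⟨U, hU, rfl⟩ := isOpen_induced_iff.1 hV
  have hUS : ∀ b ∈ M, b ∈ U → π b ∈ S i := fun b hb hbU => hVS ⟨b, hb⟩ hbU
  -- every orbit meets `U`
  have horb : ∀ b ∈ M, ∃ g : E ≃ₗᵢ[ℝ] E, act g b ∈ U := by
    intro b hb
    have h1 : closure (range fun g : E ≃ₗᵢ[ℝ] E => act g b) = M := by
      refine hmin _ (closure_minimal ?_ hMcl) isClosed_closure
        ⟨act 1 b, subset_closure ⟨1, rfl⟩⟩ fun g b' hb' => ?_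
      · rintro _ ⟨g, rfl⟩
        exact hMi g b hb
      · have h2 : act g b' ∈ closure (act g '' range fun g : E ≃ₗᵢ[ℝ] E => act g b) :=
          image_closure_subset_closure_image (continuous_act g) (mem_image_of_mem _ hb')
        refine closure_minimal ?_ isClosed_closure h2
        rintro _ ⟨_, ⟨h, rfl⟩, rfl⟩
        refine subset_closure ⟨g * h, ?_⟩
        rw [act_act]
    have h3 : (b₀ : E → E → ℝ) ∈ closure (range fun g : E ≃ₗᵢ[ℝ] E => act g b) := by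
      rw [h1]; exact b₀.2
    obtain ⟨_, h4, ⟨g, rfl⟩⟩ := mem_closure_iff.1 h3 U hU hb₀
    exact ⟨g, h4⟩
  obtain ⟨t, ht⟩ := hMcpt.elim_finite_subcover (fun g : E ≃ₗᵢ[ℝ] E => (act g) ⁻¹' U)
    (fun g => hU.preimage (continuous_act g)) (fun b hb => by
      obtain ⟨g, hg⟩ := horb b hb
      exact mem_iUnion.2 ⟨g, hg⟩)
  refine ⟨t, U, fun b hb => ?_, fun b hb b' hb' hbU hbU' v w => ?_⟩
  · obtain ⟨g, hg, hgb⟩ := mem_iUnion₂.1 (ht hb)
    exact ⟨g, hg, hgb⟩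
  · have h1 : ∀ n, |b (d n) (d n) - b' (d n) (d n)| ≤ 4 * ε := by
      intro n
      have := hS2 i _ (hUS b hb hbU) _ (hUS b' hb' hbU') n
      rwa [hπ] at this
    have h2 := near_of_dense (hMf b hb) (hMf b' hb') hd hdd h1
    have h3 := form_polar (hMf b hb) (hMf b' hb') (by positivity : 0 ≤ 4 * ε) h2 v w
    linarith

/-- the action on bounded bilinear forms -/
noncomputable def actB (g : E ≃ₗᵢ[ℝ] E) (B : E →L[ℝ] E →L[ℝ] ℝ) : E →L[ℝ] E →L[ℝ] ℝ :=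
  B.bilinearComp (g.symm.toContinuousLinearEquiv : E →L[ℝ] E)
    (g.symm.toContinuousLinearEquiv : E →L[ℝ] E)

lemma actB_apply (g : E ≃ₗᵢ[ℝ] E) (B : E →L[ℝ] E →L[ℝ] ℝ) (v w : E) :
    actB g B v w = B (g.symm v) (g.symm w) := rfl

lemma norm_actB_le (g : E ≃ₗᵢ[ℝ] E) (B : E →L[ℝ] E →L[ℝ] ℝ) : ‖actB g B‖ ≤ ‖B‖ := by
  refine ContinuousLinearMap.opNorm_le_bound₂ _ (by positivity) fun v w => ?_
  rw [actB_apply]
  have := B.le_opNorm₂ (g.symm v) (g.symm w)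
  rwa [LinearIsometryEquiv.norm_map, LinearIsometryEquiv.norm_map] at this

lemma actB_mul (g h : E ≃ₗᵢ[ℝ] E) (B : E →L[ℝ] E →L[ℝ] ℝ) :
    actB g (actB h B) = actB (g * h) B := by
  ext v w
  rfl

lemma actB_one (B : E →L[ℝ] E →L[ℝ] ℝ) : actB 1 B = B := by
  ext v w
  rfl

lemma norm_actB (g : E ≃ₗᵢ[ℝ] E) (B : E →L[ℝ] E →L[ℝ] ℝ) : ‖actB g B‖ = ‖B‖ := by
  refine le_antisymm (norm_actB_le g B) ?_
  have h := norm_actB_le g⁻¹ (actB g B)
  rwa [actB_mul, inv_mul_cancel, actB_one] at h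

lemma actB_sub (g : E ≃ₗᵢ[ℝ] E) (B B' : E →L[ℝ] E →L[ℝ] ℝ) :
    actB g (B - B') = actB g B - actB g B' := by
  ext v w
  rfl

/-- the action as a linear map -/
noncomputable def actL (g : E ≃ₗᵢ[ℝ] E) :
    (E →L[ℝ] E →L[ℝ] ℝ) →ₗ[ℝ] (E →L[ℝ] E →L[ℝ] ℝ) where
  toFun := actB g
  map_add' B B' := by ext v w; rfl
  map_smul' r B := by ext v w; rfl

/-- **The fixed form.** -/
theorem exists_fixed [TopologicalSpace.SeparableSpace E] {c : ℝ} (A : E →L[ℝ] E →L[ℝ] ℝ)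
    (hsymm : ∀ v w, A v w = A w v) (hc : ∀ v, c * ‖v‖ ^ 2 ≤ A v v)
    (hno : ∀ d : ℕ → E, (∀ n, ‖d n‖ ≤ 1) → ∀ ε : ℝ, 0 < ε →
      NoOrder {f : ℕ → ℝ | ∃ g : E ≃ₗᵢ[ℝ] E, f = fun n => A (g.symm (d n)) (g.symm (d n))} ε) :
    ∃ B : E →L[ℝ] E →L[ℝ] ℝ, (∀ v w, B v w = B w v) ∧ (∀ v, c * ‖v‖ ^ 2 ≤ B v v) ∧
      ∀ (T : E ≃ₗᵢ[ℝ] E) (v w : E), B (T v) (T w) = B v w := by
  classical
  -- a dense sequence in the unit ball
  obtain ⟨d, hd, hdd⟩ : ∃ d : ℕ → E, (∀ n, ‖d n‖ ≤ 1) ∧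
      ∀ v : E, ‖v‖ ≤ 1 → ∀ δ : ℝ, 0 < δ → ∃ n, ‖d n - v‖ < δ := by
    have h2 : SecondCountableTopology E := UniformSpace.secondCountable_of_separable E
    have hne : Nonempty (Metric.closedBall (0 : E) 1) := ⟨⟨0, by simp⟩⟩
    refine ⟨fun n => TopologicalSpace.denseSeq (Metric.closedBall (0 : E) 1) n, fun n => ?_,
      fun v hv δ hδ => ?_⟩
    · have := (TopologicalSpace.denseSeq (Metric.closedBall (0 : E) 1) n).2
      rwa [mem_closedBall_zero_iff] at this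
    · have h1 := Metric.denseRange_iff.1
        (TopologicalSpace.denseRange_denseSeq (Metric.closedBall (0 : E) 1))
        ⟨v, by rwa [mem_closedBall_zero_iff]⟩ δ hδ
      obtain ⟨n, hn⟩ := h1
      refine ⟨n, ?_⟩
      rw [dist_comm, Subtype.dist_eq, dist_eq_norm] at hn
      exact hn
  obtain ⟨a, ha⟩ : ∃ a : E → E → ℝ, a = fun v w => A v w := ⟨_, rfl⟩
  have hform : IsForm c ‖A‖ a := by
    rw [ha]
    exact ⟨hsymm, fun u v w => by simp, fun r v w => by simp, hc, fun v w => by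
      have := A.le_opNorm₂ v w
      rwa [Real.norm_eq_abs] at this⟩
  obtain ⟨C, hC⟩ : ∃ C, C = ‖A‖ := ⟨_, rfl⟩
  rw [← hC] at hform
  have hKf : closure (range fun g : E ≃ₗᵢ[ℝ] E => act g a) ⊆ {b | IsForm c C b} := by
    refine closure_minimal ?_ (isClosed_isForm c C)
    rintro _ ⟨g, rfl⟩
    exact isForm_act hform g
  obtain ⟨M, hMsub, hMcl, hMne, hMi, hmin⟩ := exists_minimal
    (closure (range fun g : E ≃ₗᵢ[ℝ] E => act g a))
    ((isCompact_isForm c C).of_isClosed_subset isClosed_closure hKf)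
    ⟨act 1 a, subset_closure ⟨1, rfl⟩⟩
    (fun s => ∀ g : E ≃ₗᵢ[ℝ] E, ∀ b ∈ s, act g b ∈ s) (by
      intro g b' hb'
      have h2 : act g b' ∈ closure (act g '' range fun g : E ≃ₗᵢ[ℝ] E => act g a) :=
        image_closure_subset_closure_image (continuous_act g) (mem_image_of_mem _ hb')
      refine closure_minimal ?_ isClosed_closure h2
      rintro _ ⟨_, ⟨h, rfl⟩, rfl⟩
      refine subset_closure ⟨g * h, ?_⟩
      rw [act_act]) (fun cc _ hcc g b hb s hs => hcc s hs g b (hb s hs))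
  have hMf : ∀ b ∈ M, IsForm c C b := fun b hb => hKf (hMsub hb)
  have hcover : ∀ ε : ℝ, 0 < ε → ∃ (t : Finset (E ≃ₗᵢ[ℝ] E)) (U : Set (E → E → ℝ)),
      (∀ b ∈ M, ∃ g ∈ t, act g b ∈ U) ∧
      ∀ b ∈ M, ∀ b' ∈ M, b ∈ U → b' ∈ U → ∀ v w, |b v w - b' v w| ≤ 8 * ε * ‖v‖ * ‖w‖ := by
    intro ε hε
    refine minimal_cover a hform d hd hdd M hMcl hMne hMsub hMi hmin hε ?_
    have := hno d hd ε hε
    rw [ha]
    exact this
  -- the set of bounded forms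
  obtain ⟨N, hN⟩ : ∃ N : Set (E →L[ℝ] E →L[ℝ] ℝ), N = {B | (fun v w => B v w) ∈ M} := ⟨_, rfl⟩
  have hlift : ∀ b ∈ M, ∃ B ∈ N, ∀ v w, B v w = b v w := by
    intro b hb
    have hf := hMf b hb
    let L : E →ₗ[ℝ] E →ₗ[ℝ] ℝ := LinearMap.mk₂ ℝ b hf.add hf.smul
      (fun u v w => by rw [hf.symm u (v + w), hf.add, hf.symm v u, hf.symm w u])
      (fun r v w => by rw [hf.symm v (r • w), hf.smul, hf.symm w v, smul_eq_mul])
    have hL : ∀ v w, ‖L v w‖ ≤ C * ‖v‖ * ‖w‖ := fun v w => by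
      rw [Real.norm_eq_abs]; exact hf.upper v w
    refine ⟨L.mkContinuous₂ C hL, ?_, fun v w => rfl⟩
    rw [hN]
    exact hb
  have hNne : N.Nonempty := by
    obtain ⟨b, hb⟩ := hMne
    obtain ⟨B, hB, -⟩ := hlift b hb
    exact ⟨B, hB⟩
  have hNi : ∀ g : E ≃ₗᵢ[ℝ] E, ∀ B ∈ N, actB g B ∈ N := by
    intro g B hB
    rw [hN] at hB ⊢
    exact hMi g _ hB
  have htb : ∀ ε : ℝ, 0 < ε → ∃ t : Finset (E →L[ℝ] E →L[ℝ] ℝ), ∀ B ∈ N, ∃ B' ∈ t,
      ‖B - B'‖ < ε := by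
    intro ε hε
    obtain ⟨t, U, h1, h2⟩ := hcover (ε / 16) (by positivity)
    -- one representative for every piece
    have hrep : ∀ g : E ≃ₗᵢ[ℝ] E, ∃ B₀ : E →L[ℝ] E →L[ℝ] ℝ, ∀ B ∈ N,
        (fun v w => actB g B v w) ∈ U → ‖B - B₀‖ < ε := by
      intro g
      by_cases h : ∃ B₀ ∈ N, (fun v w => actB g B₀ v w) ∈ U
      · obtain ⟨B₀, hB₀, hU₀⟩ := h
        refine ⟨B₀, fun B hB hBU => ?_⟩
        rw [← norm_actB g, actB_sub]
        have k1 := hNi g B hB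
        have k2 := hNi g B₀ hB₀
        rw [hN] at k1 k2
        have k3 := h2 _ k1 _ k2 hBU hU₀
        have k4 : ‖actB g B - actB g B₀‖ ≤ 8 * (ε / 16) := by
          refine ContinuousLinearMap.opNorm_le_bound₂ _ (by positivity) fun v w => ?_
          rw [Real.norm_eq_abs]
          exact k3 v w
        linarith
      · exact ⟨0, fun B hB hBU => absurd ⟨B, hB, hBU⟩ h⟩
    choose rep hrep using hrep
    refine ⟨t.image rep, fun B hB => ?_⟩
    have hBM : (fun v w => B v w) ∈ M := by rw [hN] at hB; exact hB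
    obtain ⟨g, hg, hgU⟩ := h1 _ hBM
    exact ⟨rep g, Finset.mem_image_of_mem _ hg, hrep g B hB hgU⟩
  obtain ⟨B, hB, hBK⟩ := fixed_of_totallyBounded (V := E →L[ℝ] E →L[ℝ] ℝ)
    (fun g : E ≃ₗᵢ[ℝ] E => actL g) (fun g x => norm_actB g x) (fun g => ⟨g⁻¹, fun x => by
      show actB g (actB g⁻¹ x) = x
      rw [actB_mul, mul_inv_cancel, actB_one]⟩) N hNne hNi htb
  -- closed convex properties
  have hBp : B ∈ {B : E →L[ℝ] E →L[ℝ] ℝ | (∀ v w, B v w = B w v) ∧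
      ∀ v, c * ‖v‖ ^ 2 ≤ B v v} := by
    refine hBK _ ?_ ?_ ?_
    · have : {B : E →L[ℝ] E →L[ℝ] ℝ | (∀ v w, B v w = B w v) ∧ ∀ v, c * ‖v‖ ^ 2 ≤ B v v} =
          (⋂ v, ⋂ w, {B | B v w = B w v}) ∩ ⋂ v, {B | c * ‖v‖ ^ 2 ≤ B v v} := by
        ext B; simp
      rw [this]
      refine IsClosed.inter ?_ ?_
      · exact isClosed_iInter fun v => isClosed_iInter fun w =>
          isClosed_eq (by fun_prop) (by fun_prop)
      · exact isClosed_iInter fun v => isClosed_le (by fun_prop) (by fun_prop)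
    · intro B hB B' hB' s r hs hr hsr
      have k1 := hB.1
      have k2 := hB'.1
      have k3 := hB.2
      have k4 := hB'.2
      refine ⟨fun v w => ?_, fun v => ?_⟩
      · show s * B v w + r * B' v w = s * B w v + r * B' w v
        rw [k1, k2]
      · show c * ‖v‖ ^ 2 ≤ s * B v v + r * B' v v
        have k5 := mul_le_mul_of_nonneg_left (k3 v) hs
        have k6 := mul_le_mul_of_nonneg_left (k4 v) hr
        have k7 : s * (c * ‖v‖ ^ 2) + r * (c * ‖v‖ ^ 2) = c * ‖v‖ ^ 2 := by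
          rw [← add_mul, hsr, one_mul]
        linarith
    · intro B hB
      rw [hN] at hB
      have := hMf _ hB
      exact ⟨this.symm, this.lower⟩
  refine ⟨B, hBp.1, hBp.2, fun T v w => ?_⟩
  have h1 : actB T B = B := hB T
  have h2 : actB T B (T v) (T w) = B (T v) (T w) := by rw [h1]
  rw [actB_apply, LinearIsometryEquiv.symm_apply_apply,
    LinearIsometryEquiv.symm_apply_apply] at h2
  exact h2.symm

end Pool.Agent.H282.Stab
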