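import Pool.Agent.H282.Stab.Defs
import Pool.Agent.H282.Stab.Em

/-! # Stability excludes order patterns of the second derivative along the isometry group -/

set_option autoImplicit false

namespace Pool.Agent.H282.Stab

open Set Filter Topology Asymptotics

lemma ulim (U : Ultrafilter ℕ) (s : ℕ → ℝ) {R : ℝ} (h : ∀ n, |s n| ≤ R) :
    ∃ a : ℝ, Tendsto s U (𝓝 a) := by
  have h1 : ((U.map s : Ultrafilter ℝ) : Filter ℝ) ≤ 𝓟 (Icc (-R) R) := by
    rw [le_principal_iff]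
    refine Filter.mem_map.2 (Filter.univ_mem' fun n => ?_)
    exact abs_le.1 (h n)
  obtain ⟨a, -, ha⟩ := (isCompact_Icc (a := -R) (b := R)).ultrafilter_le_nhds _ h1
  exact ⟨a, ha⟩

variable {E : Type} [NormedAddCommGroup E]

lemma iter (hst : StableNorm E) (U : Ultrafilter ℕ) (x y : ℕ → E) {C : ℝ}
    (hx : ∀ n, ‖x n‖ ≤ C) (hy : ∀ n, ‖y n‖ ≤ C) :
    ∃ (a b : ℕ → ℝ) (α : ℝ), (∀ m, Tendsto (fun n => ‖x m + y n‖) U (𝓝 (a m))) ∧
      (∀ n, Tendsto (fun m => ‖x m + y n‖) U (𝓝 (b n))) ∧ Tendsto a U (𝓝 α) ∧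
      Tendsto b U (𝓝 α) := by
  have hb : ∀ m n, |‖x m + y n‖| ≤ 2 * C := by
    intro m n
    rw [abs_of_nonneg (norm_nonneg _)]
    have := norm_add_le (x m) (y n)
    have := hx m
    have := hy n
    linarith
  choose a ha using fun m => ulim U (fun n => ‖x m + y n‖) (hb m)
  choose b hb' using fun n => ulim U (fun m => ‖x m + y n‖) (fun m => hb m n)
  have ha1 : ∀ m, |a m| ≤ 2 * C := fun m =>
    le_of_tendsto ((continuous_abs.tendsto _).comp (ha m)) (Eventually.of_forall fun n => hb m n)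
  have hb1 : ∀ n, |b n| ≤ 2 * C := fun n =>
    le_of_tendsto ((continuous_abs.tendsto _).comp (hb' n)) (Eventually.of_forall fun m => hb m n)
  obtain ⟨α, hα⟩ := ulim U a ha1
  obtain ⟨β, hβ⟩ := ulim U b hb1
  have : α = β := hst x y C hx hy U U a b α β ha hb' hα hβ
  exact ⟨a, b, α, ha, hb', hα, this ▸ hβ⟩

variable [NormedSpace ℝ E]

theorem noOrder_of_stable (hst : StableNorm E) (x : E) (A : E →L[ℝ] E →L[ℝ] ℝ)
    (hexp : (fun w : E => ‖x + w‖ ^ 2 + ‖x - w‖ ^ 2 - 2 * ‖x‖ ^ 2 - 2 * A w w)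
      =o[𝓝 0] fun w : E => ‖w‖ ^ 2) (d : ℕ → E) (hd : ∀ n, ‖d n‖ ≤ 1) {ε : ℝ} (hε : 0 < ε) :
    NoOrder {f : ℕ → ℝ | ∃ g : E ≃ₗᵢ[ℝ] E, f = fun n => A (g.symm (d n)) (g.symm (d n))} ε := by
  rintro ⟨F, u, v, hF, h1, h2⟩
  choose g hg using hF
  rw [isLittleO_iff] at hexp
  obtain ⟨t, ht, hexp⟩ := Metric.eventually_nhds_iff.1 (hexp (show 0 < ε / 8 by positivity))
  obtain ⟨s, hsdef⟩ : ∃ s, s = t / 2 := ⟨_, rfl⟩
  have hs : 0 < s := by rw [hsdef]; positivity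
  -- second difference quotients
  obtain ⟨Φ, hΦ⟩ : ∃ Φ : ℕ → ℕ → ℝ, Φ = fun m n =>
      (‖g m x + s • d n‖ ^ 2 + ‖g m x - s • d n‖ ^ 2 - 2 * ‖x‖ ^ 2) / (2 * s ^ 2) := ⟨_, rfl⟩
  have hΦF : ∀ m n, |Φ m n - F m n| ≤ ε / 16 := by
    intro m n
    have e1 : ‖(g m).symm (d n)‖ ≤ 1 := by rw [LinearIsometryEquiv.norm_map]; exact hd n
    have e2 : dist (s • (g m).symm (d n)) 0 < t := by
      rw [dist_zero_right, norm_smul, Real.norm_of_nonneg hs.le]
      have : s * ‖(g m).symm (d n)‖ ≤ s * 1 := mul_le_mul_of_nonneg_left e1 hs.le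
      rw [hsdef] at this ⊢
      linarith
    have e3 := hexp e2
    rw [norm_pow, norm_norm, norm_smul, Real.norm_of_nonneg hs.le, mul_pow] at e3
    have e4 : ‖x + s • (g m).symm (d n)‖ = ‖g m x + s • d n‖ := by
      rw [← (g m).norm_map (x + s • (g m).symm (d n)), map_add, map_smul,
        LinearIsometryEquiv.apply_symm_apply]
    have e5 : ‖x - s • (g m).symm (d n)‖ = ‖g m x - s • d n‖ := by
      rw [← (g m).norm_map (x - s • (g m).symm (d n)), map_sub, map_smul,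
        LinearIsometryEquiv.apply_symm_apply]
    rw [e4, e5] at e3
    have e6 : A (s • (g m).symm (d n)) (s • (g m).symm (d n)) = s ^ 2 * F m n := by
      rw [hg m]
      simp only [map_smul, smul_apply, smul_eq_mul]
      ring
    rw [e6] at e3
    have e7 : Φ m n - F m n = (‖g m x + s • d n‖ ^ 2 + ‖g m x - s • d n‖ ^ 2 - 2 * ‖x‖ ^ 2
        - 2 * (s ^ 2 * F m n)) / (2 * s ^ 2) := by
      rw [hΦ]
      field_simp
    rw [e7, abs_div, abs_of_pos (show (0 : ℝ) < 2 * s ^ 2 by positivity),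
      div_le_iff₀ (by positivity)]
    rw [Real.norm_eq_abs] at e3
    refine e3.trans ?_
    have e8 : ‖(g m).symm (d n)‖ ^ 2 ≤ 1 := by
      have := norm_nonneg ((g m).symm (d n))
      nlinarith
    have e9 : ε / 8 * (s ^ 2 * ‖(g m).symm (d n)‖ ^ 2) ≤ ε / 8 * (s ^ 2 * 1) := by gcongr
    linarith
  have k1 : ∀ m n, m < n → |Φ m (u n) - Φ m (v n)| ≤ 3 * ε / 16 := by
    intro m n hmn
    have e1 := abs_le.1 (hΦF m (u n))
    have e2 := abs_le.1 (hΦF m (v n))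
    have e3 := abs_le.1 (h1 m n hmn)
    rw [abs_le]
    constructor <;> linarith
  have k2 : ∀ m n, m ≤ n → 3 * ε / 8 ≤ |Φ n (u m) - Φ n (v m)| := by
    intro m n hmn
    have e1 := abs_le.1 (hΦF n (u m))
    have e2 := abs_le.1 (hΦF n (v m))
    have e3 := h2 m n hmn
    rcases le_total 0 (F n (u m) - F n (v m)) with h | h
    · rw [abs_of_nonneg h] at e3
      refine le_trans ?_ (le_abs_self _)
      linarith
    · rw [abs_of_nonpos h] at e3
      refine le_trans ?_ (neg_le_abs _)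
      linarith
  -- iterated limits
  obtain ⟨U, hU⟩ : ∃ U : Ultrafilter ℕ, U = hyperfilter ℕ := ⟨_, rfl⟩
  have hUn : ∀ n : ℕ, ∀ᶠ m in (U : Filter ℕ), n < m := by
    intro n
    rw [hU]
    have : (Iic n)ᶜ ∈ hyperfilter ℕ := compl_mem_hyperfilter_of_finite (finite_Iic n)
    filter_upwards [this] with m hm
    simpa using hm
  obtain ⟨C, hC⟩ : ∃ C, C = ‖x‖ + s := ⟨_, rfl⟩
  have hX : ∀ m, ‖g m x‖ ≤ C := fun m => by
    rw [LinearIsometryEquiv.norm_map, hC]; linarith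
  have hY : ∀ (w : ℕ → ℕ) (n : ℕ), ‖s • d (w n)‖ ≤ C := fun w n => by
    rw [norm_smul, Real.norm_of_nonneg hs.le, hC]
    have := mul_le_mul_of_nonneg_left (hd (w n)) hs.le
    have := norm_nonneg x
    linarith
  have hY' : ∀ (w : ℕ → ℕ) (n : ℕ), ‖-(s • d (w n))‖ ≤ C := fun w n => by
    rw [norm_neg]; exact hY w n
  obtain ⟨a1, b1, α1, p1, q1, r1, t1⟩ := iter hst U (fun m => g m x) (fun n => s • d (u n)) hX
    (hY u)
  obtain ⟨a2, b2, α2, p2, q2, r2, t2⟩ := iter hst U (fun m => g m x) (fun n => -(s • d (u n))) hX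
    (hY' u)
  obtain ⟨a3, b3, α3, p3, q3, r3, t3⟩ := iter hst U (fun m => g m x) (fun n => s • d (v n)) hX
    (hY v)
  obtain ⟨a4, b4, α4, p4, q4, r4, t4⟩ := iter hst U (fun m => g m x) (fun n => -(s • d (v n))) hX
    (hY' v)
  have hdiff : ∀ m n, Φ m (u n) - Φ m (v n) = (‖g m x + s • d (u n)‖ ^ 2 +
      ‖g m x + -(s • d (u n))‖ ^ 2 - ‖g m x + s • d (v n)‖ ^ 2 - ‖g m x + -(s • d (v n))‖ ^ 2)
        / (2 * s ^ 2) := by
    intro m n
    rw [hΦ]
    simp only [← sub_eq_add_neg]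
    field_simp
    ring
  obtain ⟨lam, hlam⟩ : ∃ lam, lam = (α1 ^ 2 + α2 ^ 2 - α3 ^ 2 - α4 ^ 2) / (2 * s ^ 2) := ⟨_, rfl⟩
  have l1 : |lam| ≤ 3 * ε / 16 := by
    have w1 : ∀ m, |(a1 m ^ 2 + a2 m ^ 2 - a3 m ^ 2 - a4 m ^ 2) / (2 * s ^ 2)| ≤ 3 * ε / 16 := by
      intro m
      have lim := ((((p1 m).pow 2).add ((p2 m).pow 2)).sub ((p3 m).pow 2)).sub ((p4 m).pow 2)
      have lim' := (lim.div_const (2 * s ^ 2)).abs
      refine le_of_tendsto lim' ?_
      filter_upwards [hUn m] with n hn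
      have := k1 m n hn
      rw [hdiff] at this
      exact this
    have lim := (((r1.pow 2).add (r2.pow 2)).sub (r3.pow 2)).sub (r4.pow 2)
    have lim' := (lim.div_const (2 * s ^ 2)).abs
    rw [hlam]
    exact le_of_tendsto lim' (Eventually.of_forall w1)
  have l2 : 3 * ε / 8 ≤ |lam| := by
    have w1 : ∀ n, 3 * ε / 8 ≤ |(b1 n ^ 2 + b2 n ^ 2 - b3 n ^ 2 - b4 n ^ 2) / (2 * s ^ 2)| := by
      intro n
      have lim := ((((q1 n).pow 2).add ((q2 n).pow 2)).sub ((q3 n).pow 2)).sub ((q4 n).pow 2)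
      have lim' := (lim.div_const (2 * s ^ 2)).abs
      refine ge_of_tendsto lim' ?_
      filter_upwards [hUn n] with m hm
      have := k2 n m hm.le
      rw [hdiff] at this
      exact this
    have lim := (((t1.pow 2).add (t2.pow 2)).sub (t3.pow 2)).sub (t4.pow 2)
    have lim' := (lim.div_const (2 * s ^ 2)).abs
    rw [hlam]
    exact ge_of_tendsto lim' (Eventually.of_forall w1)
  linarith

end Pool.Agent.H282.Stab
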