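import Pool.Graph.R_pool_sql_team_seeded_64922ed1.X192.BM.LocNull
import Pool.Graph.R_seed8.Y278.Rot.HessMain

/-!
# Locally compact spaces of pair orbits: uniform second order expansions
-/

set_option autoImplicit false

namespace Pool.Agent.H282.Stab

open Set Filter Topology Asymptotics
open Pool.TH578.Rot Pool.Agent.X192.BM Pool.Agent.Y278.Rot

variable {E : Type} [NormedAddCommGroup E] [NormedSpace ℝ E]

/-- the local form of the compactness of pair orbits implies the global form -/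
lemma pairCompact_of_local {r : ℝ} (hr : 0 < r) (hP : LocalPairs E r) : PairCompact E := by
  classical
  intro ε hε
  obtain ⟨s, hs, hs1, hsr⟩ : ∃ s : ℝ, 0 < s ∧ s ≤ 1 / 2 ∧ 2 * s ≤ r := by
    refine ⟨min r 1 / 2, by positivity, ?_, ?_⟩
    · have := min_le_right r 1; linarith
    · have := min_le_left r 1; linarith
  obtain ⟨δ, hδ, hδ1, hδs⟩ : ∃ δ : ℝ, 0 < δ ∧ δ ≤ 1 ∧ 5 * δ ≤ ε * s := by
    refine ⟨min 1 (ε * s / 5), by positivity, min_le_left _ _, ?_⟩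
    have := min_le_right 1 (ε * s / 5)
    linarith
  have hδε : δ ≤ ε := by nlinarith
  obtain ⟨P, hP⟩ := hP δ hδ
  obtain ⟨K, hK⟩ := exists_nat_gt (2 / δ)
  refine ⟨(P ×ˢ Finset.range (K + 1)).image
    (fun p => (p.1.1, s⁻¹ • ((p.2 * δ) • p.1.2 - p.1.1))), fun x z hx hz => ?_⟩
  -- the nearby vector
  obtain ⟨lam, hlam⟩ : ∃ lam, lam = ‖x + s • z‖ := ⟨_, rfl⟩
  have hsz : ‖s • z‖ = s := by rw [norm_smul, hz, Real.norm_of_nonneg hs.le, mul_one]
  have hl1 : 1 - s ≤ lam := by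
    have := norm_sub_norm_le x (-(s • z))
    rw [norm_neg, hsz, hx, sub_neg_eq_add] at this
    rw [hlam]; exact this
  have hl2 : lam ≤ 1 + s := by
    have := norm_add_le x (s • z)
    rw [hsz, hx] at this
    rw [hlam]; exact this
  have hl0 : 0 < lam := by linarith
  obtain ⟨y, hy⟩ : ∃ y, y = lam⁻¹ • (x + s • z) := ⟨_, rfl⟩
  have hy1 : ‖y‖ = 1 := by
    rw [hy, norm_smul, norm_inv, Real.norm_of_nonneg hl0.le, ← hlam, inv_mul_cancel₀ hl0.ne']
  have hly : lam • y = x + s • z := by rw [hy, smul_inv_smul₀ hl0.ne']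
  have hxy : ‖x - y‖ ≤ r := by
    have h1 : x - y = (x - lam • y) + (lam - 1) • y := by rw [sub_smul, one_smul]; abel
    have h2 : x - lam • y = -(s • z) := by rw [hly]; abel
    have h3 : |lam - 1| ≤ s := by rw [abs_le]; constructor <;> linarith
    calc ‖x - y‖ ≤ ‖x - lam • y‖ + ‖(lam - 1) • y‖ := by
          nth_rw 1 [h1]; exact norm_add_le _ _
      _ ≤ s + s := by
          rw [h2, norm_neg, hsz, norm_smul, hy1, mul_one, Real.norm_eq_abs]; linarith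
      _ ≤ r := by linarith
  obtain ⟨p, hp, T, hT1, hT2⟩ := hP x y hx hy1 hxy
  obtain ⟨k, hk⟩ : ∃ k : ℕ, k = ⌊lam / δ⌋₊ := ⟨_, rfl⟩
  have hk1 : (k : ℝ) * δ ≤ lam := by
    have := Nat.floor_le (a := lam / δ) (by positivity)
    rw [← hk, le_div_iff₀ hδ] at this
    exact this
  have hk2 : lam < (k + 1) * δ := by
    have := Nat.lt_floor_add_one (lam / δ)
    rw [← hk, div_lt_iff₀ hδ] at this
    exact this
  have hkK : k < K + 1 := by
    have h1 : (k : ℝ) ≤ 2 / δ := by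
      rw [le_div_iff₀ hδ]; linarith
    have h2 : (k : ℝ) < K := lt_of_le_of_lt h1 hK
    have h3 : k < K := by exact_mod_cast h2
    omega
  refine ⟨(p.1, s⁻¹ • ((k * δ) • p.2 - p.1)), Finset.mem_image.2 ⟨(p, k),
    Finset.mem_product.2 ⟨hp, Finset.mem_range.2 hkK⟩, rfl⟩, T, hT1.trans hδε, ?_⟩
  have h1 : T z = s⁻¹ • (lam • T y - T x) := by
    rw [← map_smul, hly, map_add, map_smul, add_sub_cancel_left, inv_smul_smul₀ hs.ne']
  have h2 : T z - s⁻¹ • ((k * δ) • p.2 - p.1) =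
      s⁻¹ • ((lam - k * δ) • p.2 + lam • (T y - p.2) - (T x - p.1)) := by
    rw [h1, ← smul_sub]
    congr 1
    rw [sub_smul, smul_sub]
    abel
  have hp2 : ‖p.2‖ ≤ 2 := by
    have : ‖p.2‖ ≤ ‖T y‖ + ‖T y - p.2‖ := by
      have := norm_sub_le (T y) (T y - p.2)
      rwa [sub_sub_cancel] at this
    rw [T.norm_map, hy1] at this
    linarith
  show ‖T z - s⁻¹ • ((k * δ) • p.2 - p.1)‖ ≤ ε
  rw [h2, norm_smul, norm_inv, Real.norm_of_nonneg hs.le, inv_mul_le_iff₀ hs]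
  have h3 : ‖(lam - k * δ) • p.2‖ ≤ δ * 2 := by
    rw [norm_smul, Real.norm_eq_abs]
    have : |lam - k * δ| ≤ δ := by rw [abs_le]; constructor <;> linarith
    gcongr
  have h4 : ‖lam • (T y - p.2)‖ ≤ 3 / 2 * δ := by
    rw [norm_smul, Real.norm_of_nonneg hl0.le]
    have : lam ≤ 3 / 2 := by linarith
    gcongr
  have h5 := norm_sub_le ((lam - k * δ) • p.2 + lam • (T y - p.2)) (T x - p.1)
  have h6 := norm_add_le ((lam - k * δ) • p.2) (lam • (T y - p.2))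
  linarith

/-- second difference quotients at nearby points -/
lemma QS_sub_le {x x' : E} (hx : ‖x‖ = 1) (hx' : ‖x'‖ = 1) {t : ℝ} (ht : 0 < t) (ht1 : t ≤ 1)
    {w : E} (hw : ‖w‖ ≤ 1) : |QS t x w - QS t x' w| ≤ 4 * ‖x - x'‖ / t ^ 2 := by
  have sq : ∀ a b : E, ‖a‖ ≤ 2 → ‖b‖ ≤ 2 → |‖a‖ ^ 2 - ‖b‖ ^ 2| ≤ 4 * ‖a - b‖ := by
    intro a b ha hb
    have h1 : ‖a‖ ^ 2 - ‖b‖ ^ 2 = (‖a‖ + ‖b‖) * (‖a‖ - ‖b‖) := by ring
    rw [h1, abs_mul, abs_of_nonneg (by positivity)]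
    have h2 := abs_norm_sub_norm_le a b
    have h3 : ‖a‖ + ‖b‖ ≤ 4 := by linarith
    gcongr
  have htw : ‖t • w‖ ≤ 1 := by
    rw [norm_smul, Real.norm_of_nonneg ht.le]
    have := norm_nonneg w
    nlinarith
  have b1 : ‖x + t • w‖ ≤ 2 := (norm_add_le _ _).trans (by linarith)
  have b2 : ‖x' + t • w‖ ≤ 2 := (norm_add_le _ _).trans (by linarith)
  have b3 : ‖x - t • w‖ ≤ 2 := (norm_sub_le _ _).trans (by linarith)
  have b4 : ‖x' - t • w‖ ≤ 2 := (norm_sub_le _ _).trans (by linarith)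
  have c1 := sq _ _ b1 b2
  have c2 := sq _ _ b3 b4
  rw [add_sub_add_right_eq_sub] at c1
  rw [sub_sub_sub_cancel_right] at c2
  unfold QS
  rw [hx, hx', ← sub_div, abs_div, abs_of_pos (show (0 : ℝ) < 2 * t ^ 2 by positivity),
    div_le_div_iff₀ (by positivity) (by positivity)]
  have h1 : ‖x + t • w‖ ^ 2 + ‖x - t • w‖ ^ 2 - 2 * 1 ^ 2 -
      (‖x' + t • w‖ ^ 2 + ‖x' - t • w‖ ^ 2 - 2 * 1 ^ 2) =
      (‖x + t • w‖ ^ 2 - ‖x' + t • w‖ ^ 2) + (‖x - t • w‖ ^ 2 - ‖x' - t • w‖ ^ 2) := by ring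
  rw [h1]
  have h2 := abs_add_le (‖x + t • w‖ ^ 2 - ‖x' + t • w‖ ^ 2)
    (‖x - t • w‖ ^ 2 - ‖x' - t • w‖ ^ 2)
  have h3 : |‖x + t • w‖ ^ 2 - ‖x' + t • w‖ ^ 2 + (‖x - t • w‖ ^ 2 - ‖x' - t • w‖ ^ 2)| ≤
      8 * ‖x - x'‖ := by linarith
  have ht2 : 0 < t ^ 2 := by positivity
  nlinarith [norm_nonneg (x - x')]

lemma num_aux {a b K s τ : ℝ} (_ha : 0 ≤ a) (_hb : 0 ≤ b) (hK : 0 < K) (h2 : 2 ≤ a + b)
    (h5 : (a - b) ^ 2 ≤ 4 * s) (h6 : a + b ≤ 2 + K * s) (_hs0 : 0 ≤ s) (hs4 : s ≤ 4 * τ)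
    (hτ : τ ≤ 1) : 0 ≤ a ^ 2 + b ^ 2 - 2 ∧
      a ^ 2 + b ^ 2 - 2 ≤ 4 * (K + 1 + K ^ 2) * (2 * τ) := by
  have h7 : (a + b) ^ 2 ≤ (2 + K * s) ^ 2 := by
    have : 0 ≤ a + b := by linarith
    gcongr
  have h7' : 2 ^ 2 ≤ (a + b) ^ 2 := by gcongr
  have e1 : a ^ 2 + b ^ 2 - 2 = ((a + b) ^ 2 + (a - b) ^ 2) / 2 - 2 := by ring
  refine ⟨?_, ?_⟩
  · have := sq_nonneg (a - b)
    linarith
  · have h10 : s ^ 2 ≤ 4 * s := by nlinarith
    have h13 := mul_le_mul_of_nonneg_left h10 (sq_nonneg K)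
    have h11 : a ^ 2 + b ^ 2 - 2 ≤ (2 * K + 2 + 2 * K ^ 2) * s := by
      rw [e1]
      have : (2 + K * s) ^ 2 = 4 + 4 * (K * s) + K ^ 2 * s ^ 2 := by ring
      rw [this] at h7
      linarith
    have h12 := mul_le_mul_of_nonneg_left hs4 (show 0 ≤ 2 * K + 2 + 2 * K ^ 2 by positivity)
    linarith

/-- the second difference quotients are equi-Lipschitz functions of the direction -/
lemma QS_lip {K : ℝ} (hK0 : 0 < K)
    (hK : ∀ x w : E, ‖x‖ = 1 → ‖x + w‖ + ‖x - w‖ - 2 * ‖x‖ ≤ K * ‖w‖ ^ 2) {x : E}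
    (hx : ‖x‖ = 1) : ∃ L : ℝ, 0 < L ∧ ∀ t : ℝ, 0 < t → t ≤ 1 → ∀ v w : E, ‖v‖ ≤ 1 → ‖w‖ ≤ 1 →
      |QS t x v - QS t x w| ≤ L * ‖v - w‖ := by
  obtain ⟨M, hM⟩ : ∃ M, M = 4 * (K + 1 + K ^ 2) := ⟨_, rfl⟩
  have hM0 : 0 < M := by rw [hM]; positivity
  refine ⟨4 * M, by positivity, fun t ht ht1 v w hv hw => ?_⟩
  have hconv : ConvexOn ℝ (Metric.ball (0 : E) 2) (fun w => QS t x w) := by
    have c1 : ConvexOn ℝ (Set.univ : Set E) (fun w : E => ‖x + t • w‖) := by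
      refine ⟨convex_univ, fun u _ v _ a b ha hb hab => ?_⟩
      have e : x + t • (a • u + b • v) = a • (x + t • u) + b • (x + t • v) := by
        have : x = a • x + b • x := by rw [← add_smul, hab, one_smul]
        nth_rw 1 [this]
        simp only [smul_add, smul_comm t]
        abel
      show ‖x + t • (a • u + b • v)‖ ≤ a • ‖x + t • u‖ + b • ‖x + t • v‖
      rw [e, smul_eq_mul, smul_eq_mul]
      refine (norm_add_le _ _).trans ?_
      rw [norm_smul, norm_smul, Real.norm_of_nonneg ha, Real.norm_of_nonneg hb]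
    have c2 : ConvexOn ℝ (Set.univ : Set E) (fun w : E => ‖x - t • w‖) := by
      refine ⟨convex_univ, fun u _ v _ a b ha hb hab => ?_⟩
      have e : x - t • (a • u + b • v) = a • (x - t • u) + b • (x - t • v) := by
        have : x = a • x + b • x := by rw [← add_smul, hab, one_smul]
        nth_rw 1 [this]
        simp only [smul_add, smul_sub, smul_comm t]
        abel
      show ‖x - t • (a • u + b • v)‖ ≤ a • ‖x - t • u‖ + b • ‖x - t • v‖
      rw [e, smul_eq_mul, smul_eq_mul]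
      refine (norm_add_le _ _).trans ?_
      rw [norm_smul, norm_smul, Real.norm_of_nonneg ha, Real.norm_of_nonneg hb]
    have c3 := (c1.pow (fun _ _ => norm_nonneg _) 2).add (c2.pow (fun _ _ => norm_nonneg _) 2)
    have c4 := (c3.add_const (-(2 * ‖x‖ ^ 2))).smul
      (show (0 : ℝ) ≤ (2 * t ^ 2)⁻¹ by positivity)
    refine (c4.subset (subset_univ _) (convex_ball _ _)).congr ?_
    intro w _
    show (2 * t ^ 2)⁻¹ • (‖x + t • w‖ ^ 2 + ‖x - t • w‖ ^ 2 + -(2 * ‖x‖ ^ 2)) = QS t x w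
    unfold QS
    rw [smul_eq_mul, inv_mul_eq_div, ← sub_eq_add_neg]
  have hbound : ∀ w : E, dist w 0 < 2 → |QS t x w| ≤ M := by
    intro w hw
    rw [dist_zero_right] at hw
    have htw : ‖t • w‖ = t * ‖w‖ := by rw [norm_smul, Real.norm_of_nonneg ht.le]
    have h1 := hK x (t • w) hx
    rw [hx, htw] at h1
    obtain ⟨a, ha⟩ : ∃ a, a = ‖x + t • w‖ := ⟨_, rfl⟩
    obtain ⟨b, hb⟩ : ∃ b, b = ‖x - t • w‖ := ⟨_, rfl⟩
    rw [← ha, ← hb] at h1
    have ha0 : 0 ≤ a := by rw [ha]; positivity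
    have hb0 : 0 ≤ b := by rw [hb]; positivity
    have h2 : 2 ≤ a + b := by
      have := norm_add_le (x + t • w) (x - t • w)
      rw [← ha, ← hb, add_add_sub_cancel, ← two_smul ℝ, norm_smul, hx] at this
      simpa using this
    have h3 : |a - b| ≤ 2 * (t * ‖w‖) := by
      have h4 := abs_norm_sub_norm_le (x + t • w) (x - t • w)
      rw [← ha, ← hb, add_sub_sub_cancel, ← two_smul ℝ, norm_smul, htw] at h4
      simpa using h4
    have hw0 := norm_nonneg w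
    have htt : t ^ 2 ≤ 1 := pow_le_one₀ ht.le ht1
    have hww : ‖w‖ ^ 2 ≤ 4 := by
      have : ‖w‖ ^ 2 ≤ 2 ^ 2 := by gcongr
      linarith
    have h5 : (a - b) ^ 2 ≤ 4 * (t ^ 2 * ‖w‖ ^ 2) := by
      have := sq_abs (a - b)
      rw [← this]
      calc |a - b| ^ 2 ≤ (2 * (t * ‖w‖)) ^ 2 := by gcongr
        _ = 4 * (t ^ 2 * ‖w‖ ^ 2) := by ring
    have h6 : a + b ≤ 2 + K * (t ^ 2 * ‖w‖ ^ 2) := by
      rw [mul_pow] at h1; linarith
    have hs4 : t ^ 2 * ‖w‖ ^ 2 ≤ 4 * t ^ 2 := by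
      have := mul_le_mul_of_nonneg_left hww (sq_nonneg t)
      linarith
    obtain ⟨h9, h12⟩ := num_aux ha0 hb0 hK0 h2 h5 h6 (by positivity) hs4 htt
    unfold QS
    rw [← ha, ← hb, hx, one_pow, mul_one, abs_div, abs_of_nonneg h9,
      abs_of_pos (show (0 : ℝ) < 2 * t ^ 2 by positivity), div_le_iff₀ (by positivity), hM]
    linarith
  have hlip := hconv.lipschitzOnWith_of_abs_le (r := 2) (x₀ := (0 : E)) (ε := 1 / 2) (M := M)
    (by norm_num) hbound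
  have hv' : v ∈ Metric.ball (0 : E) (2 - 1 / 2) := by
    rw [mem_ball_zero_iff]; linarith
  have hw' : w ∈ Metric.ball (0 : E) (2 - 1 / 2) := by
    rw [mem_ball_zero_iff]; linarith
  have h := hlip.dist_le_mul v hv' w hw'
  rw [Real.dist_eq, dist_eq_norm, Real.coe_toNNReal _ (by positivity)] at h
  refine h.trans (le_of_eq ?_)
  ring

/-- **Uniform second order expansion** at a point of a separable transitive Hilbertian space with
compact spaces of pair orbits. -/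
theorem uniform_expansion [CompleteSpace E] [TopologicalSpace.SeparableSpace E]
    (htr : ∀ x y : E, ‖x‖ = 1 → ‖y‖ = 1 → ∃ T : E ≃ₗᵢ[ℝ] E, T x = y) (hP : PairCompact E)
    {H : Type} [NormedAddCommGroup H] [InnerProductSpace ℝ H] (Φ : E ≃L[ℝ] H) {x : E}
    (hx : ‖x‖ = 1) : ∃ (A : E →L[ℝ] E →L[ℝ] ℝ) (c : ℝ), 0 < c ∧ (∀ w, c * ‖w‖ ^ 2 ≤ A w w) ∧
      (fun w : E => ‖x + w‖ ^ 2 + ‖x - w‖ ^ 2 - 2 * ‖x‖ ^ 2 - 2 * A w w)
        =o[𝓝 0] fun w : E => ‖w‖ ^ 2 := by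
  classical
  obtain ⟨c, hc0, hc⟩ := two_convex htr Φ
  obtain ⟨K, hK0, hK⟩ := two_smooth htr Φ
  obtain ⟨f, A, hA⟩ := exists_hessAt htr hK0 hK hx
  refine ⟨A, c / 2, by positivity, hess_lower hA hc, ?_⟩
  obtain ⟨L, hL0, hL⟩ := QS_lip hK0 hK hx
  -- uniformity over the unit vectors
  have key : ∀ ε : ℝ, 0 < ε → ∃ δ : ℝ, 0 < δ ∧ ∀ t : ℝ, 0 < t → t < δ → ∀ z : E, ‖z‖ = 1 →
      |QS t x z - A z z| ≤ ε := by
    intro ε hε
    obtain ⟨F, hF1, hF2⟩ := cover htr hP x hx (κ := ε / (8 * L)) (by positivity)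
    -- one centre for all near-stabilizers
    have hF3 : ∀ z : E, ‖z‖ = 1 → ∃ e ∈ F, ∀ η : ℝ, 0 < η →
        ∃ T : E ≃ₗᵢ[ℝ] E, ‖T x - x‖ ≤ η ∧ ‖T e - z‖ ≤ ε / (8 * L) := by
      intro z hz
      by_contra hcon
      push Not at hcon
      have : ∀ e : E, ∃ η : ℝ, 0 < η ∧ (e ∈ F → ∀ T : E ≃ₗᵢ[ℝ] E, ‖T x - x‖ ≤ η →
          ε / (8 * L) < ‖T e - z‖) := by
        intro e
        by_cases he : e ∈ F
        · obtain ⟨η, hη, h⟩ := hcon e he
          exact ⟨η, hη, fun _ => h⟩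
        · exact ⟨1, one_pos, fun h => absurd h he⟩
      choose η hη0 hη using this
      obtain ⟨e₀, he₀, -⟩ := hF2 1 one_pos z hz
      obtain ⟨e₁, he₁, hmin⟩ := F.exists_min_image η ⟨e₀, he₀⟩
      obtain ⟨e, he, T, hT1, hT2⟩ := hF2 (η e₁) (hη0 e₁) z hz
      exact absurd hT2 (not_le.2 (hη e he T (hT1.trans (hmin e he))))
    have hev : ∀ᶠ t in 𝓝[≠] (0 : ℝ), ∀ e ∈ F, |QS t x e - A e e| ≤ ε / 8 := by
      rw [Filter.eventually_all_finset]
      intro e _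
      have := (hA.lim e).sub_const (A e e)
      rw [sub_self] at this
      have h2 := this.abs
      rw [abs_zero] at h2
      exact h2.eventually (ge_mem_nhds (by positivity))
    obtain ⟨δ, hδ, hev⟩ := Metric.eventually_nhds_iff.1 (eventually_nhdsWithin_iff.1 hev)
    -- closeness to the value at the centre
    have hclose : ∀ t : ℝ, 0 < t → t < min δ 1 → ∀ z e : E, ‖z‖ = 1 → e ∈ F →
        (∀ η : ℝ, 0 < η → ∃ T : E ≃ₗᵢ[ℝ] E, ‖T x - x‖ ≤ η ∧ ‖T e - z‖ ≤ ε / (8 * L)) →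
        |QS t x z - A e e| ≤ 3 * ε / 8 := by
      intro t ht htδ z e hz he hT
      have ht1 : t ≤ 1 := (htδ.trans_le (min_le_right _ _)).le
      have htd : t < δ := htδ.trans_le (min_le_left _ _)
      obtain ⟨T, hT1, hT2⟩ := hT (ε / 32 * t ^ 2) (by positivity)
      have he1 := hF1 e he
      have a1 := hL t ht ht1 z (T e) hz.le (by rw [T.norm_map, he1])
      have a2 : |QS t x (T e) - QS t (T x) (T e)| ≤ 4 * ‖x - T x‖ / t ^ 2 :=
        QS_sub_le hx (by rw [T.norm_map, hx]) ht ht1 (by rw [T.norm_map, he1])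
      rw [QS_map] at a2
      have a3 := hev (show dist t 0 < δ by
        rw [dist_zero_right, Real.norm_of_nonneg ht.le]; exact htd) ht.ne' e he
      have b1 : L * ‖z - T e‖ ≤ ε / 8 := by
        rw [norm_sub_rev] at hT2
        have := mul_le_mul_of_nonneg_left hT2 hL0.le
        refine this.trans (le_of_eq ?_)
        field_simp
      have b2 : 4 * ‖x - T x‖ / t ^ 2 ≤ ε / 8 := by
        rw [div_le_iff₀ (by positivity), norm_sub_rev]
        linarith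
      have c1 := abs_le.1 (a1.trans b1)
      have c2 := abs_le.1 (a2.trans b2)
      have c3 := abs_le.1 a3
      rw [abs_le]
      constructor <;> linarith
    refine ⟨min δ 1, by positivity, fun t ht htδ z hz => ?_⟩
    obtain ⟨e, he, hT⟩ := hF3 z hz
    have h1 := abs_le.1 (hclose t ht htδ z e hz he hT)
    have h2 : |A z z - A e e| ≤ 3 * ε / 8 := by
      have hlim : Tendsto (fun s => |QS s x z - A e e|) (𝓝[>] 0) (𝓝 |A z z - A e e|) :=
        (((hA.lim z).mono_left (nhdsWithin_mono _ fun s hs => ne_of_gt hs)).sub_const _).abs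
      refine le_of_tendsto hlim ?_
      filter_upwards [Ioo_mem_nhdsGT (show (0 : ℝ) < min δ 1 by positivity)] with s hs
      exact hclose s hs.1 hs.2 z e hz he hT
    have h3 := abs_le.1 h2
    rw [abs_le]
    constructor <;> linarith
  rw [isLittleO_iff]
  intro ε hε
  obtain ⟨δ, hδ, hkey⟩ := key (ε / 2) (by positivity)
  filter_upwards [Metric.ball_mem_nhds (0 : E) hδ] with w hw
  rw [mem_ball_zero_iff] at hw
  rcases eq_or_ne w 0 with rfl | hw0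
  · simp; ring
  have hwp := norm_pos_iff.2 hw0
  obtain ⟨z, hz⟩ : ∃ z, z = ‖w‖⁻¹ • w := ⟨_, rfl⟩
  have hz1 : ‖z‖ = 1 := by rw [hz, norm_smul, norm_inv, norm_norm, inv_mul_cancel₀ hwp.ne']
  have hwz : w = ‖w‖ • z := by rw [hz, smul_inv_smul₀ hwp.ne']
  have h1 := hkey ‖w‖ hwp hw z hz1
  have h2 : ‖x + w‖ ^ 2 + ‖x - w‖ ^ 2 - 2 * ‖x‖ ^ 2 - 2 * A w w =
      2 * ‖w‖ ^ 2 * (QS ‖w‖ x z - A z z) := by
    have h3 : A w w = ‖w‖ ^ 2 * A z z := by
      rw [hz]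
      simp only [map_smul, _root_.smul_apply, smul_eq_mul]
      field_simp
    unfold QS
    rw [← hwz, h3]
    field_simp
  rw [h2, norm_mul, Real.norm_eq_abs (QS ‖w‖ x z - A z z), Real.norm_of_nonneg (by positivity),
    Real.norm_of_nonneg (by positivity)]
  have h3 := mul_le_mul_of_nonneg_left h1 (show (0 : ℝ) ≤ 2 * ‖w‖ ^ 2 by positivity)
  linarith

end Pool.Agent.H282.Stab
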